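import Pool.Agent.H39Alpha.Defs

/-! Auxiliary lemmas on `blockOp`. -/

namespace Pool.Agent.H39Alpha

open scoped ENNReal InnerProductSpace

variable {m : ℕ} {H : Type*} [NormedAddCommGroup H] [InnerProductSpace ℂ H]

@[simp] lemma blockOp_apply (T : Matrix (Fin m) (Fin m) (H →L[ℂ] H))
    (ξ : PiLp 2 (fun _ : Fin m => H)) (i : Fin m) :
    (blockOp T ξ) i = ∑ j, T i j (ξ j) := by
  simp [blockOp]

lemma blockOp_mul (S T : Matrix (Fin m) (Fin m) (H →L[ℂ] H)) :
    blockOp (S * T) = blockOp S * blockOp T := by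
  ext ξ i
  simp only [blockOp_apply, Matrix.mul_apply, mul_apply_eq_comp, map_sum,
    sum_apply]
  exact Finset.sum_comm

lemma blockOp_add (S T : Matrix (Fin m) (Fin m) (H →L[ℂ] H)) :
    blockOp (S + T) = blockOp S + blockOp T := by
  ext ξ i
  simp [Finset.sum_add_distrib]

lemma blockOp_smul (c : ℂ) (T : Matrix (Fin m) (Fin m) (H →L[ℂ] H)) :
    blockOp (c • T) = c • blockOp T := by
  ext ξ i
  simp [Finset.smul_sum]

lemma blockOp_zero : blockOp (0 : Matrix (Fin m) (Fin m) (H →L[ℂ] H)) = 0 := by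
  ext ξ i
  simp

lemma blockOp_one : blockOp (1 : Matrix (Fin m) (Fin m) (H →L[ℂ] H)) = 1 := by
  ext ξ i
  simp only [blockOp_apply]
  rw [Finset.sum_eq_single i]
  · simp
  · intro j _ hj
    simp [hj.symm]
  · simp

lemma blockOp_sum {ι : Type*} (s : Finset ι) (T : ι → Matrix (Fin m) (Fin m) (H →L[ℂ] H)) :
    blockOp (∑ k ∈ s, T k) = ∑ k ∈ s, blockOp (T k) := by
  classical
  induction s using Finset.induction_on with
  | empty => simp [blockOp_zero]
  | insert a s ha ih => rw [Finset.sum_insert ha, Finset.sum_insert ha, blockOp_add, ih]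

lemma blockOp_star [CompleteSpace H] (T : Matrix (Fin m) (Fin m) (H →L[ℂ] H)) :
    star (blockOp T) = blockOp (star T) := by
  symm
  rw [ContinuousLinearMap.star_eq_adjoint, ContinuousLinearMap.eq_adjoint_iff]
  intro x y
  simp only [PiLp.inner_apply, blockOp_apply, sum_inner, inner_sum, Matrix.star_apply,
    ContinuousLinearMap.star_eq_adjoint, ContinuousLinearMap.adjoint_inner_left]
  exact Finset.sum_comm

/-- Amplification of a scalar matrix. -/
noncomputable def amp (H : Type*) [NormedAddCommGroup H] [InnerProductSpace ℂ H]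
    (M : Matrix (Fin m) (Fin m) ℂ) :
    PiLp 2 (fun _ : Fin m => H) →L[ℂ] PiLp 2 (fun _ : Fin m => H) :=
  blockOp (M.map (fun c => c • (1 : H →L[ℂ] H)))

@[simp] lemma amp_apply (M : Matrix (Fin m) (Fin m) ℂ) (ξ : PiLp 2 (fun _ : Fin m => H))
    (i : Fin m) : (amp H M ξ) i = ∑ j, M i j • (ξ j) := by
  simp [amp]

lemma amp_mul (M N : Matrix (Fin m) (Fin m) ℂ) : amp H (M * N) = amp H M * amp H N := by
  ext ξ i
  simp only [amp_apply, Matrix.mul_apply, mul_apply_eq_comp, Finset.smul_sum,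
    Finset.sum_smul, smul_smul]
  exact Finset.sum_comm

lemma amp_add (M N : Matrix (Fin m) (Fin m) ℂ) : amp H (M + N) = amp H M + amp H N := by
  ext ξ i
  simp [Finset.sum_add_distrib, add_smul]

lemma amp_smul (c : ℂ) (M : Matrix (Fin m) (Fin m) ℂ) : amp H (c • M) = c • amp H M := by
  ext ξ i
  simp [Finset.smul_sum, smul_smul]

lemma amp_one : amp H (1 : Matrix (Fin m) (Fin m) ℂ) = 1 := by
  ext ξ i
  simp only [amp_apply]
  rw [Finset.sum_eq_single i]
  · simp
  · intro j _ hj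
    simp [hj.symm]
  · simp

lemma amp_zero : amp H (0 : Matrix (Fin m) (Fin m) ℂ) = 0 := by
  ext ξ i
  simp

lemma amp_star [CompleteSpace H] (M : Matrix (Fin m) (Fin m) ℂ) :
    star (amp H M) = amp H (star M) := by
  rw [amp, blockOp_star, amp]
  congr 1
  ext i j : 2
  simp

/-- Amplification as a star algebra homomorphism. -/
noncomputable def ampHom (m : ℕ) (H : Type*) [NormedAddCommGroup H] [InnerProductSpace ℂ H]
    [CompleteSpace H] :
    Matrix (Fin m) (Fin m) ℂ →⋆ₐ[ℂ]
      (PiLp 2 (fun _ : Fin m => H) →L[ℂ] PiLp 2 (fun _ : Fin m => H)) where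
  toFun := amp H
  map_one' := amp_one
  map_mul' := amp_mul
  map_zero' := amp_zero
  map_add' := amp_add
  commutes' := fun c => by
    rw [Algebra.algebraMap_eq_smul_one, amp_smul, amp_one, Algebra.algebraMap_eq_smul_one]
  map_star' := fun M => (amp_star M).symm

lemma norm_amp_le [CompleteSpace H] (M : Matrix (Fin m) (Fin m) ℂ) :
    ‖amp H M‖ ≤ ‖Matrix.toEuclideanCLM (𝕜 := ℂ) M‖ := by
  have h := NonUnitalStarAlgHom.norm_apply_le
    ((ampHom m H).comp
      ((Matrix.toEuclideanCLM (n := Fin m) (𝕜 := ℂ)).symm : _ →⋆ₐ[ℂ] _))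
    (Matrix.toEuclideanCLM (𝕜 := ℂ) M)
  simpa [ampHom] using h

end Pool.Agent.H39Alpha
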