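import Mathlib

/-! A small verified checker for strict positivity of trigonometric polynomials with Gaussian
integer coefficients. -/

namespace Pool.Agent.H39Alpha.Cert

open scoped ComplexConjugate

/-- a pair of integers as a Gaussian integer in `ℂ` -/
noncomputable def toC (a : ℤ × ℤ) : ℂ := (a.1 : ℂ) + (a.2 : ℂ) * Complex.I

/-- addition -/
def gadd (a b : ℤ × ℤ) : ℤ × ℤ := (a.1 + b.1, a.2 + b.2)
/-- multiplication -/
def gmul (a b : ℤ × ℤ) : ℤ × ℤ := (a.1 * b.1 - a.2 * b.2, a.1 * b.2 + a.2 * b.1)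
/-- conjugation -/
def gconj (a : ℤ × ℤ) : ℤ × ℤ := (a.1, -a.2)

lemma toC_gadd (a b : ℤ × ℤ) : toC (gadd a b) = toC a + toC b := by
  simp only [toC, gadd]; push_cast; ring

lemma toC_gmul (a b : ℤ × ℤ) : toC (gmul a b) = toC a * toC b := by
  simp only [toC, gmul]; push_cast
  linear_combination (-(a.2 : ℂ) * b.2) * Complex.I_mul_I

lemma toC_gconj (a : ℤ × ℤ) : toC (gconj a) = conj (toC a) := by
  simp [toC, gconj]

lemma norm_toC_le (a : ℤ × ℤ) : ‖toC a‖ ≤ ((|a.1| + |a.2| : ℤ) : ℝ) := by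
  calc ‖toC a‖ ≤ ‖(a.1 : ℂ)‖ + ‖(a.2 : ℂ) * Complex.I‖ := norm_add_le _ _
    _ = ((|a.1| + |a.2| : ℤ) : ℝ) := by
        simp

/-- evaluation of a coefficient list as a polynomial -/
noncomputable def pev : List (ℤ × ℤ) → ℂ → ℂ
  | [], _ => 0
  | a :: l, z => toC a + z * pev l z

/-- addition of coefficient lists -/
def padd : List (ℤ × ℤ) → List (ℤ × ℤ) → List (ℤ × ℤ)
  | [], l => l
  | a :: l, [] => a :: l
  | a :: l, b :: m => gadd a b :: padd l m

/-- scalar multiplication -/
def psmul (c : ℤ × ℤ) : List (ℤ × ℤ) → List (ℤ × ℤ)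
  | [] => []
  | a :: l => gmul c a :: psmul c l

/-- multiplication of coefficient lists -/
def pmul : List (ℤ × ℤ) → List (ℤ × ℤ) → List (ℤ × ℤ)
  | [], _ => []
  | a :: l, m => padd (psmul a m) ((0, 0) :: pmul l m)

/-- conjugate reversal -/
def crev : List (ℤ × ℤ) → List (ℤ × ℤ)
  | [] => []
  | a :: l => crev l ++ [gconj a]

/-- homogenized dilation: coefficients of `N ^ (len - 1) * p (q z / N)` -/
def pdil (q : ℤ × ℤ) (N : ℤ) : List (ℤ × ℤ) → List (ℤ × ℤ)
  | [] => []
  | a :: l => gmul (N ^ l.length, 0) a :: psmul q (pdil q N l)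

/-- the sum of the absolute values of the coefficients -/
def l1 : List (ℤ × ℤ) → ℤ
  | [] => 0
  | a :: l => |a.1| + |a.2| + l1 l

lemma pev_padd : ∀ (l m : List (ℤ × ℤ)) (z : ℂ), pev (padd l m) z = pev l z + pev m z
  | [], m, z => by simp [padd, pev]
  | a :: l, [], z => by simp [padd, pev]
  | a :: l, b :: m, z => by
      simp only [padd, pev, toC_gadd, pev_padd l m z]; ring

lemma pev_psmul (c : ℤ × ℤ) : ∀ (l : List (ℤ × ℤ)) (z : ℂ), pev (psmul c l) z = toC c * pev l z
  | [], z => by simp [psmul, pev]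
  | a :: l, z => by simp only [psmul, pev, toC_gmul, pev_psmul c l z]; ring

lemma pev_pmul : ∀ (l m : List (ℤ × ℤ)) (z : ℂ), pev (pmul l m) z = pev l z * pev m z
  | [], m, z => by simp [pmul, pev]
  | a :: l, m, z => by
      simp only [pmul, pev_padd, pev_psmul, pev, pev_pmul l m z]
      have : toC (0, 0) = 0 := by simp [toC]
      rw [this]; ring

lemma pev_append : ∀ (l m : List (ℤ × ℤ)) (z : ℂ),
    pev (l ++ m) z = pev l z + z ^ l.length * pev m z
  | [], m, z => by simp [pev]
  | a :: l, m, z => by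
      simp only [List.cons_append, pev, pev_append l m z, List.length_cons]; ring

lemma length_crev : ∀ l : List (ℤ × ℤ), (crev l).length = l.length
  | [] => rfl
  | a :: l => by simp [crev, length_crev l]

lemma pev_crev (z : ℂ) (hz : z * conj z = 1) : ∀ l : List (ℤ × ℤ),
    z * pev (crev l) z = z ^ l.length * conj (pev l z)
  | [] => by simp [crev, pev]
  | a :: l => by
      simp only [crev, pev_append, pev, length_crev, List.length_cons, toC_gconj, map_add,
        map_mul, mul_add, pev_crev z hz l]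
      linear_combination (-(z ^ l.length * conj (pev l z))) * hz

lemma pev_pdil (q : ℤ × ℤ) (N : ℤ) (hN : N ≠ 0) (z : ℂ) : ∀ l : List (ℤ × ℤ),
    (N : ℂ) * pev (pdil q N l) z = (N : ℂ) ^ l.length * pev l (toC q / N * z)
  | [] => by simp [pdil, pev]
  | a :: l => by
      have hN' : (N : ℂ) ≠ 0 := by exact_mod_cast hN
      have h1 : toC (N ^ l.length, 0) = (N : ℂ) ^ l.length := by simp [toC]
      simp only [pdil, pev, toC_gmul, pev_psmul, List.length_cons, h1]
      have h2 := pev_pdil q N hN z l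
      have h3 : toC q * z = N * (toC q / N * z) := by field_simp
      calc (N : ℂ) * ((N : ℂ) ^ l.length * toC a + z * (toC q * pev (pdil q N l) z))
          = (N : ℂ) ^ (l.length + 1) * toC a
            + toC q * z * ((N : ℂ) * pev (pdil q N l) z) := by ring
        _ = (N : ℂ) ^ (l.length + 1) * (toC a + toC q / N * z * pev l (toC q / N * z)) := by
            rw [h2, h3]; ring

lemma norm_pev_le (z : ℂ) (hz : ‖z‖ = 1) : ∀ l : List (ℤ × ℤ), ‖pev l z‖ ≤ (l1 l : ℝ)
  | [] => by simp [pev, l1]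
  | a :: l => by
      simp only [pev, l1]
      calc ‖toC a + z * pev l z‖ ≤ ‖toC a‖ + ‖z * pev l z‖ := norm_add_le _ _
        _ = ‖toC a‖ + ‖pev l z‖ := by rw [norm_mul, hz, one_mul]
        _ ≤ ((|a.1| + |a.2| : ℤ) : ℝ) + (l1 l : ℝ) := by
            gcongr
            · exact norm_toC_le a
            · exact norm_pev_le z hz l
        _ = ((|a.1| + |a.2| + l1 l : ℤ) : ℝ) := by push_cast; ring

/-- The certificate: `P = c * g * g^# + (A, r, B)` with `r` dominating. -/
theorem cert_pos (P g A B : List (ℤ × ℤ)) (r : ℤ × ℤ) (c : ℤ) (d : ℕ) (hc : 0 ≤ c)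
    (hg : g.length = d + 1) (hA : A.length = d)
    (hR : padd P (psmul (-c, 0) (pmul g (crev g))) = A ++ r :: B)
    (hoff : l1 A + l1 B < r.1) (z : ℂ) (hz : ‖z‖ = 1) :
    0 < (pev P z * conj z ^ d).re := by
  have hzz : z * conj z = 1 := by
    rw [Complex.mul_conj, Complex.normSq_eq_norm_sq, hz]; simp
  have hz0 : z ≠ 0 := by
    intro h; rw [h] at hz; simp at hz
  have h1 := congrArg (fun l => pev l z) hR
  simp only [pev_padd, pev_psmul, pev_pmul, pev_append, pev, hA] at h1
  have h2 : pev (crev g) z = z ^ d * conj (pev g z) := by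
    have h := pev_crev z hzz g
    rw [hg, pow_succ] at h
    have : z * pev (crev g) z = z * (z ^ d * conj (pev g z)) := by rw [h]; ring
    exact mul_left_cancel₀ hz0 this
  have hc' : toC (-c, 0) = -(c : ℂ) := by simp [toC]
  rw [h2, hc'] at h1
  have hzd : z ^ d * conj z ^ d = 1 := by rw [← mul_pow, hzz, one_pow]
  have h3 : pev P z * conj z ^ d = (c : ℂ) * (pev g z * conj (pev g z)) + pev A z * conj z ^ d
      + toC r + z * pev B z := by
    linear_combination (conj z ^ d) * h1 + (toC r + z * pev B z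
      + c * (pev g z * conj (pev g z))) * hzd
  rw [h3, Complex.mul_conj]
  have e1 : (((c : ℂ) * ((Complex.normSq (pev g z) : ℝ) : ℂ))).re
      = (c : ℝ) * Complex.normSq (pev g z) := by
    have : ((c : ℂ) * ((Complex.normSq (pev g z) : ℝ) : ℂ))
        = (((c : ℝ) * Complex.normSq (pev g z) : ℝ) : ℂ) := by push_cast; rfl
    rw [this, Complex.ofReal_re]
  have e2 : (toC r).re = (r.1 : ℝ) := by simp [toC]
  have e3 : -(l1 A : ℝ) ≤ (pev A z * conj z ^ d).re := by
    have h4 : ‖pev A z * conj z ^ d‖ ≤ (l1 A : ℝ) := by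
      rw [norm_mul, norm_pow, RCLike.norm_conj, hz, one_pow, mul_one]
      exact norm_pev_le z hz A
    have h5 := Complex.abs_re_le_norm (pev A z * conj z ^ d)
    have h6 := neg_abs_le (pev A z * conj z ^ d).re
    linarith
  have e4 : -(l1 B : ℝ) ≤ (z * pev B z).re := by
    have h4 : ‖z * pev B z‖ ≤ (l1 B : ℝ) := by
      rw [norm_mul, hz, one_mul]
      exact norm_pev_le z hz B
    have h5 := Complex.abs_re_le_norm (z * pev B z)
    have h6 := neg_abs_le (z * pev B z).re
    linarith
  have e5 : ((l1 A + l1 B : ℤ) : ℝ) < (r.1 : ℝ) := by exact_mod_cast hoff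
  push_cast at e5
  have e6 : 0 ≤ (c : ℝ) * Complex.normSq (pev g z) :=
    mul_nonneg (by exact_mod_cast hc) (Complex.normSq_nonneg _)
  simp only [Complex.add_re, e1, e2]
  linarith

/-- A self-conjugate coefficient list evaluates to a real number. -/
lemma real_of_crev (P : List (ℤ × ℤ)) (d : ℕ) (hP : P.length = 2 * d + 1) (hc : crev P = P)
    (z : ℂ) (hz : ‖z‖ = 1) :
    pev P z * conj z ^ d = (((pev P z * conj z ^ d).re : ℝ) : ℂ) := by
  have hzz : z * conj z = 1 := by
    rw [Complex.mul_conj, Complex.normSq_eq_norm_sq, hz]; simp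
  have hz0 : z ≠ 0 := by
    intro h; rw [h] at hz; simp at hz
  have h := pev_crev z hzz P
  rw [hc, hP, pow_succ] at h
  have h1 : pev P z = z ^ (2 * d) * conj (pev P z) := by
    have : z * pev P z = z * (z ^ (2 * d) * conj (pev P z)) := by rw [h]; ring
    exact mul_left_cancel₀ hz0 this
  have hzd : z ^ d * conj z ^ d = 1 := by rw [← mul_pow, hzz, one_pow]
  apply Eq.symm
  apply Complex.conj_eq_iff_re.mp
  rw [map_mul, map_pow, Complex.conj_conj]
  conv_rhs => rw [h1]
  rw [two_mul, pow_add]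
  linear_combination (-(z ^ d * conj (pev P z))) * hzd

end Pool.Agent.H39Alpha.Cert
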