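import Pool.Agent.H39Alpha.Cert

/-! The certificate: a trigonometric polynomial `x` with
`2 + 2 Re (q z) ≤ x (q z) * (599/100 - 3 - 2 Re z - x z)`. -/

namespace Pool.Agent.H39Alpha.Cert

open scoped ComplexConjugate

/-- numerator of the rotation -/
def qi : ℤ × ℤ := (-60, 11)

/-- the rotation `q = (-60 + 11 i) / 61` -/
noncomputable def qc : ℂ := toC qi / ((61 : ℤ) : ℂ)

/-- the coefficients of `2000 * x` -/
def listX : List (ℤ × ℤ) := [(38,-19),(-104,76),(168,60),(-367,-213),(28,221),(2256,0),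
  (28,-221),(-367,213),(168,-60),(-104,-76),(38,19)]

/-- the coefficients of `2000 * (599/100 - 3 - 2 Re z)` -/
def listT : List (ℤ × ℤ) := [(0,0),(0,0),(0,0),(0,0),(-2000,0),(5980,0),(-2000,0),(0,0),(0,0),
  (0,0),(0,0)]

/-- the coefficients of `2000 * (599/100 - 3 - 2 Re z - x z)` -/
def listM : List (ℤ × ℤ) := padd listT (psmul (-1, 0) listX)

/-- a spectral factor for `x` -/
def gX : List (ℤ × ℤ) := [(19,-10),(-54,41),(89,19),(-204,-87),(61,91),(976,0)]

/-- the fifth power of the conjugate of `qi` -/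
def qb5 : ℤ × ℤ := gmul (gconj qi) (gmul (gconj qi) (gmul (gconj qi) (gmul (gconj qi) (gconj qi))))

/-- the dilated list -/
def listXq : List (ℤ × ℤ) := pdil qi 61 listX

/-- the coefficients of the polynomial to be shown positive -/
def listP : List (ℤ × ℤ) :=
  padd (psmul qb5 (pmul listM listXq))
    [(0,0),(0,0),(0,0),(0,0),(0,0),(0,0),(0,0),(0,0),(0,0),
      gmul (-(2000 ^ 2 * 61 ^ 14), 0) (gconj qi), (-(2 * 2000 ^ 2 * 61 ^ 15), 0),
      gmul (-(2000 ^ 2 * 61 ^ 14), 0) qi]

/-- a spectral factor for the main polynomial -/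
def gG : List (ℤ × ℤ) := [(29,-1),(-4,-11),(-25,270),(34,-62),(-118,667),(332,-15),(-89,-308),
  (-14,-104),(-273,-132),(-10,238),(1552,0)]

/-- the multiplier -/
def cG : ℤ := 33783852 * 61 ^ 10

/-- the remainder of the main polynomial -/
def remG : List (ℤ × ℤ) := padd listP (psmul (-cG, 0) (pmul gG (crev gG)))

/-- the remainder for `x` -/
def remX : List (ℤ × ℤ) := padd (psmul (500, 0) listX) (psmul (-1, 0) (pmul gX (crev gX)))

lemma remG_eq : remG = remG.take 10 ++ (remG.getD 10 (0,0)) :: remG.drop 11 := by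
  decide +kernel

lemma remG_lt : l1 (remG.take 10) + l1 (remG.drop 11) < (remG.getD 10 (0,0)).1 := by
  decide +kernel

lemma remX_eq : remX = remX.take 5 ++ (remX.getD 5 (0,0)) :: remX.drop 6 := by
  decide +kernel

lemma remX_lt : l1 (remX.take 5) + l1 (remX.drop 6) < (remX.getD 5 (0,0)).1 := by
  decide +kernel

/-- the function `x` -/
noncomputable def xf (z : ℂ) : ℝ := (pev listX z * conj z ^ 5).re / 2000

lemma xf_pos (z : ℂ) (hz : ‖z‖ = 1) : 0 < xf z := by
  have h := cert_pos (psmul (500, 0) listX) gX (remX.take 5) (remX.drop 6) (remX.getD 5 (0,0))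
    1 5 (by norm_num) (by decide) (by decide +kernel) remX_eq remX_lt z hz
  rw [pev_psmul] at h
  have h5 : toC (500, 0) = ((500 : ℝ) : ℂ) := by simp [toC]
  rw [h5, mul_assoc, Complex.re_ofReal_mul] at h
  rw [xf]
  linarith

lemma toC_qi_mul_conj : toC qi * conj (toC qi) = (61 : ℂ) ^ 2 := by
  simp only [toC, qi, map_add, map_mul, Complex.conj_I, map_intCast]
  push_cast
  linear_combination (-121 : ℂ) * Complex.I_mul_I

lemma norm_qc : ‖qc‖ = 1 := by
  have h : ‖toC qi‖ = 61 := by
    have h1 : ‖toC qi‖ ^ 2 = 61 ^ 2 := by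
      have h2 := toC_qi_mul_conj
      rw [Complex.mul_conj, Complex.normSq_eq_norm_sq] at h2
      exact_mod_cast h2
    exact (pow_left_inj₀ (norm_nonneg _) (by norm_num) two_ne_zero).mp h1
  rw [qc, norm_div, h]
  simp

lemma xf_main (z : ℂ) (hz : ‖z‖ = 1) :
    2 + 2 * (qc * z).re ≤ xf (qc * z) * (599 / 100 - 3 - 2 * z.re - xf z) := by
  have h := cert_pos listP gG (remG.take 10) (remG.drop 11) (remG.getD 10 (0,0))
    cG 10 (by norm_num [cG]) (by decide) (by decide +kernel) remG_eq remG_lt z hz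
  have hzz : z * conj z = 1 := by
    rw [Complex.mul_conj, Complex.normSq_eq_norm_sq, hz]; simp
  have hqq := toC_qi_mul_conj
  have e1 := pev_pdil qi 61 (by norm_num) z listX
  have el : listX.length = 11 := by decide
  rw [el] at e1
  have e1' : pev listXq z = (61 : ℂ) ^ 10 * pev listX (qc * z) := by
    rw [listXq]
    have h61 : ((61 : ℤ) : ℂ) ≠ 0 := by norm_num
    apply mul_left_cancel₀ h61
    rw [e1, qc]
    push_cast
    ring
  have e2 : pev listM z = pev listT z - pev listX z := by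
    rw [listM, pev_padd, pev_psmul]
    have : toC (-1, 0) = -1 := by simp [toC]
    rw [this]; ring
  have e3 : pev listT z * conj z ^ 5 = ((5980 - 4000 * z.re : ℝ) : ℂ) := by
    have hre : ((z.re : ℝ) : ℂ) = (z + conj z) / 2 := by
      rw [Complex.re_eq_add_conj]
    push_cast
    rw [hre]
    simp only [listT, pev, toC]
    push_cast
    have h4 : z ^ 4 * conj z ^ 4 = 1 := by rw [← mul_pow, hzz, one_pow]
    have h5 : z ^ 5 * conj z ^ 5 = 1 := by rw [← mul_pow, hzz, one_pow]
    linear_combination 5980 * h5 - 2000 * conj z * h4 - 2000 * z * h5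
  have hqz : ‖qc * z‖ = 1 := by rw [norm_mul, norm_qc, hz, one_mul]
  have hcr : crev listX = listX := by decide
  have e4 := real_of_crev listX 5 (by decide) hcr z hz
  have e5 := real_of_crev listX 5 (by decide) hcr (qc * z) hqz
  have x4 : (pev listX z * conj z ^ 5).re = 2000 * xf z := by rw [xf]; ring
  have x5 : (pev listX (qc * z) * conj (qc * z) ^ 5).re = 2000 * xf (qc * z) := by rw [xf]; ring
  rw [x4] at e4
  rw [x5] at e5
  have e6 : pev listP z * conj z ^ 10 = ((2000 ^ 2 * 61 ^ 15 *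
      (xf (qc * z) * (599 / 100 - 3 - 2 * z.re - xf z) - (2 + 2 * (qc * z).re)) : ℝ) : ℂ) := by
    have hP : pev listP z = toC qb5 * (pev listM z * pev listXq z)
        + (z ^ 9 * (-(2000 ^ 2 * 61 ^ 14) * conj (toC qi)) - z ^ 10 * (2 * 2000 ^ 2 * 61 ^ 15)
          + z ^ 11 * (-(2000 ^ 2 * 61 ^ 14) * toC qi)) := by
      rw [listP, pev_padd, pev_psmul, pev_pmul]
      congr 1
      have t0 : toC (0, 0) = 0 := by simp [toC]
      have t1 : toC (-(2000 ^ 2 * 61 ^ 14), 0) = -(2000 ^ 2 * 61 ^ 14) := by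
        simp only [toC]; push_cast; ring
      have t2 : toC (-(2 * 2000 ^ 2 * 61 ^ 15), 0) = -(2 * 2000 ^ 2 * 61 ^ 15) := by
        simp only [toC]; push_cast; ring
      simp only [pev, t0, toC_gmul, t1, t2, toC_gconj]
      ring
    have hb : toC qb5 = conj (toC qi) ^ 5 := by
      simp only [qb5, toC_gmul, toC_gconj]
      ring
    have hqr : (((qc * z).re : ℝ) : ℂ) = (qc * z + conj (qc * z)) / 2 := by
      rw [Complex.re_eq_add_conj]
    have hzr : ((z.re : ℝ) : ℂ) = (z + conj z) / 2 := by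
      rw [Complex.re_eq_add_conj]
    have hqc : toC qi = 61 * qc := by
      rw [qc]; push_cast; ring
    have hqc' : conj (toC qi) = 61 * conj qc := by
      rw [hqc, map_mul, map_ofNat]
    have hL : pev listP z * conj z ^ 10
        = 61 ^ 15 * ((pev listT z * conj z ^ 5 - pev listX z * conj z ^ 5)
            * (pev listX (qc * z) * conj (qc * z) ^ 5))
          - 2000 ^ 2 * 61 ^ 15 * (conj qc * conj z * (z * conj z) ^ 9 + 2 * (z * conj z) ^ 10
            + qc * z * (z * conj z) ^ 10) := by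
      rw [hP, hb, hqc, e1', e2, map_mul, map_mul, map_ofNat]
      ring
    rw [hL, e3, e4, e5, hzz]
    push_cast
    rw [hqr, hzr, map_mul]
    ring
  rw [e6, Complex.ofReal_re] at h
  have h7 : 0 < xf (qc * z) * (599 / 100 - 3 - 2 * z.re - xf z) - (2 + 2 * (qc * z).re) := by
    by_contra hcon
    push Not at hcon
    have : (2000 ^ 2 * 61 ^ 15 : ℝ) *
      (xf (qc * z) * (599 / 100 - 3 - 2 * z.re - xf z) - (2 + 2 * (qc * z).re)) ≤ 0 :=
      mul_nonpos_of_nonneg_of_nonpos (by positivity) hcon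
    linarith
  linarith

end Pool.Agent.H39Alpha.Cert
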