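import Pool.Agent.H39Alpha.Basic

/-! From the definitions of `minNorm`, `maxNorm` to families of operators. -/

namespace Pool.Agent.H39Alpha

open scoped ENNReal InnerProductSpace ComplexConjugate

variable {n m : ℕ}

lemma norm_map_le_of_minNorm {E : Type*} [NormedAddCommGroup E] [NormedSpace ℂ E]
    (x : Matrix (Fin m) (Fin m) E) (hx : minNorm x ≤ 1) (f : E →L[ℂ] ℂ) :
    ‖Matrix.toEuclideanCLM (𝕜 := ℂ) (x.map f)‖ ≤ ‖f‖ := by
  have h1 : ∀ g : E →L[ℂ] ℂ, ‖g‖ ≤ 1 → ‖Matrix.toEuclideanCLM (𝕜 := ℂ) (x.map g)‖ ≤ 1 := by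
    intro g hg
    have : ENNReal.ofReal ‖Matrix.toEuclideanCLM (𝕜 := ℂ) (x.map g)‖ ≤ 1 :=
      (le_iSup₂ (f := fun (f : E →L[ℂ] ℂ) (_ : ‖f‖ ≤ 1) =>
        ENNReal.ofReal ‖Matrix.toEuclideanCLM (𝕜 := ℂ) (x.map f)‖) g hg).trans hx
    exact ENNReal.ofReal_le_one.mp this
  by_cases hf : ‖f‖ = 0
  · have hf0 : f = 0 := norm_eq_zero.mp hf
    have : x.map f = 0 := by
      ext i j; simp [hf0]
    rw [this, map_zero, hf0]; simp
  · have hfpos : 0 < ‖f‖ := lt_of_le_of_ne (norm_nonneg _) (Ne.symm hf)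
    have h2 := h1 (((‖f‖⁻¹ : ℝ) : ℂ) • f) (by
      rw [norm_smul]; simp [hf])
    have h3 : x.map (((‖f‖⁻¹ : ℝ) : ℂ) • f : E →L[ℂ] ℂ) = ((‖f‖⁻¹ : ℝ) : ℂ) • x.map f := by
      ext i j; simp
    rw [h3, map_smul, norm_smul] at h2
    have h4 : ‖((‖f‖⁻¹ : ℝ) : ℂ)‖ = ‖f‖⁻¹ := by simp
    rw [h4] at h2
    rwa [inv_mul_le_iff₀ hfpos, mul_one] at h2

section
variable {H : Type*} [NormedAddCommGroup H] [InnerProductSpace ℂ H]

/-- the diagonal amplification of an operator on `H` -/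
noncomputable def dia (m : ℕ) (b : H →L[ℂ] H) :
    PiLp 2 (fun _ : Fin m => H) →L[ℂ] PiLp 2 (fun _ : Fin m => H) :=
  blockOp (Matrix.diagonal fun _ => b)

@[simp] lemma dia_apply (b : H →L[ℂ] H) (ξ : PiLp 2 (fun _ : Fin m => H)) (i : Fin m) :
    (dia m b ξ) i = b (ξ i) := by
  simp only [dia, blockOp_apply]
  rw [Finset.sum_eq_single i]
  · simp
  · intro j _ hj
    simp [Matrix.diagonal_apply_ne _ hj.symm]
  · simp

lemma norm_dia_le (b : H →L[ℂ] H) : ‖dia m b‖ ≤ ‖b‖ := by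
  refine ContinuousLinearMap.opNorm_le_bound _ (norm_nonneg _) fun ξ => ?_
  rw [← sq_le_sq₀ (norm_nonneg _) (by positivity), mul_pow, PiLp.norm_sq_eq_of_L2,
    PiLp.norm_sq_eq_of_L2, Finset.mul_sum]
  refine Finset.sum_le_sum fun i _ => ?_
  rw [dia_apply, ← mul_pow]
  gcongr
  exact b.le_opNorm _

lemma dia_sum_smul (b : Fin n → (H →L[ℂ] H)) (y : Fin n → ℂ) :
    ∑ k, y k • dia m (b k) = dia m (∑ k, y k • b k) := by
  ext ξ i
  simp [sum_apply]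

lemma amp_sum_smul (a : Fin n → Matrix (Fin m) (Fin m) ℂ) (y : Fin n → ℂ) :
    ∑ k, y k • amp H (a k) = amp H (∑ k, y k • a k) := by
  ext ξ i
  simp only [sum_apply, smul_apply, WithLp.ofLp_sum, Finset.sum_apply, WithLp.ofLp_smul,
    Pi.smul_apply, amp_apply, Matrix.sum_apply, Matrix.smul_apply, smul_eq_mul, Finset.sum_smul,
    Finset.smul_sum, smul_smul]
  exact Finset.sum_comm

lemma amp_comm_dia (a : Matrix (Fin m) (Fin m) ℂ) (b : H →L[ℂ] H) :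
    amp H a * dia m b = dia m b * amp H a := by
  ext ξ i
  simp [mul_apply_eq_comp, map_sum]

lemma blockOp_map_eq_sum {E : Type*} [NormedAddCommGroup E] [NormedSpace ℂ E]
    (x : Matrix (Fin m) (Fin m) E) (u : E →L[ℂ] (H →L[ℂ] H)) (e : Fin n → E)
    (c : Fin n → (E →L[ℂ] ℂ)) (hec : ∀ z, z = ∑ k, c k z • e k) :
    blockOp (x.map u) = ∑ k, amp H (x.map (c k)) * dia m (u (e k)) := by
  ext ξ i
  simp only [blockOp_apply, Matrix.map_apply, sum_apply, mul_apply_eq_comp, WithLp.ofLp_sum,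
    Finset.sum_apply, amp_apply, dia_apply]
  rw [Finset.sum_comm]
  refine Finset.sum_congr rfl fun j _ => ?_
  conv_lhs => rw [hec (x i j)]
  simp [map_sum, sum_apply]

end

end Pool.Agent.H39Alpha
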