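import Mathlib

/-!
# The constant `α(E) = ‖id : min(E) → max(E)‖_cb` of a normed space
-/

namespace Pool.Agent.H39Alpha

open scoped ENNReal

universe v

/-- The operator on the Hilbert space direct sum `H ⊕ ⋯ ⊕ H` (`m` copies) given by an
`m × m` matrix `T` of bounded operators on `H`: `(blockOp T ξ) i = ∑ j, T i j (ξ j)`. -/
noncomputable def blockOp {m : ℕ} {H : Type*} [NormedAddCommGroup H] [InnerProductSpace ℂ H]
    (T : Matrix (Fin m) (Fin m) (H →L[ℂ] H)) :
    PiLp 2 (fun _ : Fin m => H) →L[ℂ] PiLp 2 (fun _ : Fin m => H) :=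
  (PiLp.continuousLinearEquiv 2 ℂ (fun _ : Fin m => H)).symm.toContinuousLinearMap ∘L
    (ContinuousLinearMap.pi fun i => ∑ j, (T i j) ∘L (ContinuousLinearMap.proj j)) ∘L
      (PiLp.continuousLinearEquiv 2 ℂ (fun _ : Fin m => H)).toContinuousLinearMap

/-- The norm of `x ∈ M_m(E)` in `M_m(min(E))`: the supremum over the functionals `f` of norm
at most one on `E` of the operator norm (on the Hilbert space `ℂ^m`) of the scalar matrix
`(f (x i j))`. -/
noncomputable def minNorm {E : Type*} [NormedAddCommGroup E] [NormedSpace ℂ E] {m : ℕ}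
    (x : Matrix (Fin m) (Fin m) E) : ℝ≥0∞ :=
  ⨆ (f : E →L[ℂ] ℂ) (_ : ‖f‖ ≤ 1), ENNReal.ofReal ‖Matrix.toEuclideanCLM (𝕜 := ℂ) (x.map f)‖

/-- The norm of `x ∈ M_m(E)` in `M_m(max(E))`: the supremum over the Hilbert spaces `H` and the
linear maps `u : E → B(H)` of norm at most one of the norm of the operator `(u (x i j))` on the
Hilbert space direct sum of `m` copies of `H`. -/
noncomputable def maxNorm {E : Type*} [NormedAddCommGroup E] [NormedSpace ℂ E] {m : ℕ}
    (x : Matrix (Fin m) (Fin m) E) : ℝ≥0∞ :=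
  ⨆ (H : Type v) (_ : NormedAddCommGroup H) (_ : InnerProductSpace ℂ H) (_ : CompleteSpace H)
    (u : E →L[ℂ] (H →L[ℂ] H)) (_ : ‖u‖ ≤ 1), ENNReal.ofReal ‖blockOp (x.map u)‖

/-- `α(E) = ‖id : min(E) → max(E)‖_cb`: the supremum over `m` and over the `x ∈ M_m(E)` with norm
at most one in `M_m(min(E))` of the norm of `x` in `M_m(max(E))`. -/
noncomputable def alpha (E : Type*) [NormedAddCommGroup E] [NormedSpace ℂ E] : ℝ≥0∞ :=
  ⨆ (m : ℕ) (x : Matrix (Fin m) (Fin m) E) (_ : minNorm x ≤ 1), maxNorm.{v} x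

end Pool.Agent.H39Alpha
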