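import Mathlib

/-! Averaging over the cube roots of unity. -/

namespace Pool.Agent.H39Alpha

open scoped InnerProductSpace ComplexConjugate

/-- the standard character of `ZMod 3` -/
noncomputable abbrev zc : AddChar (ZMod 3) ℂ := ZMod.stdAddChar

lemma norm_zc (t : ZMod 3) : ‖zc t‖ = 1 := AddChar.norm_apply _ _

lemma zc_eq_one_iff (t : ZMod 3) : zc t = 1 ↔ t = 0 := by
  constructor
  · intro h
    apply ZMod.injective_stdAddChar
    rw [h, AddChar.map_zero_eq_one]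
  · rintro rfl
    exact AddChar.map_zero_eq_one _

variable {n : ℕ}

/-- the additive map `s ↦ -s i + s k + s j - s l` -/
def linMap (i k j l : Fin n) : (Fin n → ZMod 3) →+ ZMod 3 :=
  -(Pi.evalAddMonoidHom (fun _ => ZMod 3) i) + (Pi.evalAddMonoidHom (fun _ => ZMod 3) k)
    + (Pi.evalAddMonoidHom (fun _ => ZMod 3) j) - (Pi.evalAddMonoidHom (fun _ => ZMod 3) l)

lemma linMap_apply (i k j l : Fin n) (s : Fin n → ZMod 3) :
    linMap i k j l s = - s i + s k + s j - s l := by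
  simp [linMap]

set_option linter.unusedSimpArgs false in
lemma comb_aux (i k j l : Fin n) (h1 : ∀ p : Fin n, - (if i = p then (1:ZMod 3) else 0)
    + (if k = p then (1:ZMod 3) else 0) + (if j = p then (1:ZMod 3) else 0)
    - (if l = p then (1:ZMod 3) else 0) = 0) : ((i = k ∧ j = l) ∨ (i = j ∧ k = l)) := by
  have hi := h1 i
  have hk := h1 k
  have hj := h1 j
  have hl := h1 l
  clear h1
  by_cases hik : i = k
  · subst hik
    by_cases hjl : j = l
    · exact Or.inl ⟨rfl, hjl⟩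
    · exfalso
      by_cases hij : i = j
      · subst hij
        have hjl' : ¬ l = i := fun h => hjl h.symm
        simp [hjl, hjl'] at hi hl
      · have hji : ¬ j = i := fun h => hij h.symm
        have hlj : ¬ l = j := fun h => hjl h.symm
        simp [hij, hji, hjl, hlj] at hj
  · have hki : ¬ k = i := fun h => hik h.symm
    by_cases hij : i = j
    · subst hij
      by_cases hkl : k = l
      · exact Or.inr ⟨rfl, hkl⟩
      · exfalso
        have hlk : ¬ l = k := fun h => hkl h.symm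
        simp [hik, hki, hkl, hlk] at hk
    · exfalso
      have hji : ¬ j = i := fun h => hij h.symm
      by_cases hil : i = l
      · subst hil
        simp [hik, hki, hij, hji] at hi
        revert hi; decide
      · have hli : ¬ l = i := fun h => hil h.symm
        simp [hik, hki, hij, hji, hil, hli] at hi

lemma linMap_eq_zero_iff (i k j l : Fin n) :
    (∀ s, linMap i k j l s = 0) ↔ ((i = k ∧ j = l) ∨ (i = j ∧ k = l)) := by
  constructor
  · intro h
    apply comb_aux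
    intro p
    have h1 := h (Pi.single p 1)
    simpa only [linMap_apply, Pi.single_apply] using h1
  · rintro (⟨rfl, rfl⟩ | ⟨rfl, rfl⟩) s
    · simp [linMap_apply]
    · simp [linMap_apply]

lemma sum_char (i k j l : Fin n) :
    ∑ s : Fin n → ZMod 3, conj (zc (s i) * conj (zc (s k))) * (zc (s j) * conj (zc (s l)))
      = 3 ^ n * (if ((i = k ∧ j = l) ∨ (i = j ∧ k = l)) then 1 else 0) := by
  classical
  have h1 : ∀ s : Fin n → ZMod 3,
      conj (zc (s i) * conj (zc (s k))) * (zc (s j) * conj (zc (s l)))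
        = (zc.compAddMonoidHom (linMap i k j l)) s := by
    intro s
    rw [AddChar.compAddMonoidHom_apply, linMap_apply, sub_eq_add_neg, AddChar.map_add_eq_mul,
      AddChar.map_add_eq_mul, AddChar.map_add_eq_mul, AddChar.map_neg_eq_conj,
      AddChar.map_neg_eq_conj]
    simp only [map_mul, Complex.conj_conj]
    ring
  rw [Finset.sum_congr rfl (fun s _ => h1 s), AddChar.sum_eq_ite]
  have h2 : (zc.compAddMonoidHom (linMap i k j l)) = 0 ↔
      ((i = k ∧ j = l) ∨ (i = j ∧ k = l)) := by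
    rw [← linMap_eq_zero_iff]
    constructor
    · intro h s
      have := congrArg (fun ψ => ψ s) h
      simpa [zc_eq_one_iff] using this
    · intro h
      ext s
      simp [h s]
  by_cases hc : ((i = k ∧ j = l) ∨ (i = j ∧ k = l))
  · rw [if_pos (h2.mpr hc), if_pos hc]
    simp
  · rw [if_neg (fun h => hc (h2.mp h)), if_neg hc]
    simp

lemma ite_split (i k j l : Fin n) :
    (if ((i = k ∧ j = l) ∨ (i = j ∧ k = l)) then (1:ℂ) else 0)
      = (if i = k then 1 else 0) * (if j = l then 1 else 0)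
        + (if i = j then 1 else 0) * (if k = l then 1 else 0)
        - (if i = k then 1 else 0) * (if j = l then 1 else 0) * (if i = j then 1 else 0) := by
  by_cases hik : i = k <;> by_cases hjl : j = l <;> by_cases hij : i = j <;>
    by_cases hkl : k = l <;> simp_all

variable {W : Type*} [NormedAddCommGroup W] [InnerProductSpace ℂ W]

lemma sum_ite_inner (w : Fin n → Fin n → W) :
    ∑ i, ∑ k, ∑ j, ∑ l, (if ((i = k ∧ j = l) ∨ (i = j ∧ k = l)) then (1:ℂ) else 0)
        * ⟪w i k, w j l⟫_ℂ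
      = ⟪∑ i, w i i, ∑ i, w i i⟫_ℂ + ∑ i, ∑ k, ⟪w i k, w i k⟫_ℂ - ∑ i, ⟪w i i, w i i⟫_ℂ := by
  simp only [ite_split, sub_mul, add_mul, Finset.sum_sub_distrib, Finset.sum_add_distrib]
  congr 1
  · congr 1
    · rw [sum_inner]
      simp only [inner_sum]
      simp
    · simp [Finset.sum_ite_eq]
  · simp

lemma inner_expand (c : Fin n → Fin n → ℂ) (w : Fin n → Fin n → W) :
    ⟪∑ i, ∑ k, c i k • w i k, ∑ i, ∑ k, c i k • w i k⟫_ℂ
      = ∑ i, ∑ k, ∑ j, ∑ l, (conj (c i k) * c j l) * ⟪w i k, w j l⟫_ℂ := by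
  rw [sum_inner]
  refine Finset.sum_congr rfl fun i _ => ?_
  rw [sum_inner]
  refine Finset.sum_congr rfl fun k _ => ?_
  rw [inner_sum]
  refine Finset.sum_congr rfl fun j _ => ?_
  rw [inner_sum]
  refine Finset.sum_congr rfl fun l _ => ?_
  rw [inner_smul_left, inner_smul_right]
  ring

lemma design_identity (w : Fin n → Fin n → W) :
    ∑ s : Fin n → ZMod 3, ‖∑ i, ∑ k, (zc (s i) * conj (zc (s k))) • w i k‖ ^ 2
      = 3 ^ n * (‖∑ i, w i i‖ ^ 2 + ∑ i, ∑ k, ‖w i k‖ ^ 2 - ∑ i, ‖w i i‖ ^ 2) := by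
  have key : ((∑ s : Fin n → ZMod 3,
      ‖∑ i, ∑ k, (zc (s i) * conj (zc (s k))) • w i k‖ ^ 2 : ℝ) : ℂ)
      = ((3 ^ n * (‖∑ i, w i i‖ ^ 2 + ∑ i, ∑ k, ‖w i k‖ ^ 2 - ∑ i, ‖w i i‖ ^ 2) : ℝ) : ℂ) := by
    push_cast
    have hn : ∀ v : W, ((‖v‖ : ℂ)) ^ 2 = ⟪v, v⟫_ℂ := fun v =>
      (inner_self_eq_norm_sq_to_K (𝕜 := ℂ) v).symm
    simp only [hn]
    rw [← sum_ite_inner]
    simp only [inner_expand]
    rw [Finset.mul_sum, Finset.sum_comm]
    refine Finset.sum_congr rfl fun i _ => ?_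
    rw [Finset.mul_sum, Finset.sum_comm]
    refine Finset.sum_congr rfl fun k _ => ?_
    rw [Finset.mul_sum, Finset.sum_comm]
    refine Finset.sum_congr rfl fun j _ => ?_
    rw [Finset.mul_sum, Finset.sum_comm]
    refine Finset.sum_congr rfl fun l _ => ?_
    rw [← Finset.sum_mul, sum_char]
    ring
  exact_mod_cast key

lemma sum_char2 (i j : Fin n) :
    ∑ s : Fin n → ZMod 3, conj (zc (s i)) * zc (s j) = 3 ^ n * (if i = j then 1 else 0) := by
  have h := sum_char i j j j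
  have h2 : (if (i = j ∧ j = j) ∨ (i = j ∧ j = j) then (1:ℂ) else 0)
      = if i = j then 1 else 0 := by simp
  rw [h2] at h
  rw [← h]
  refine Finset.sum_congr rfl fun s _ => ?_
  have h3 : conj (zc (s j)) * zc (s j) = 1 := by
    rw [← Complex.normSq_eq_conj_mul_self, Complex.normSq_eq_norm_sq, norm_zc]
    simp
  rw [map_mul, Complex.conj_conj]
  linear_combination (-(conj (zc (s i)) * zc (s j))) * h3

lemma design_identity2 (v : Fin n → W) :
    ∑ s : Fin n → ZMod 3, ‖∑ i, zc (s i) • v i‖ ^ 2 = 3 ^ n * ∑ i, ‖v i‖ ^ 2 := by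
  have key : ((∑ s : Fin n → ZMod 3, ‖∑ i, zc (s i) • v i‖ ^ 2 : ℝ) : ℂ)
      = ((3 ^ n * ∑ i, ‖v i‖ ^ 2 : ℝ) : ℂ) := by
    push_cast
    have hn : ∀ v : W, ((‖v‖ : ℂ)) ^ 2 = ⟪v, v⟫_ℂ := fun v =>
      (inner_self_eq_norm_sq_to_K (𝕜 := ℂ) v).symm
    simp only [hn]
    have h1 : ∀ s : Fin n → ZMod 3, ⟪∑ i, zc (s i) • v i, ∑ i, zc (s i) • v i⟫_ℂ
        = ∑ i, ∑ j, (conj (zc (s i)) * zc (s j)) * ⟪v i, v j⟫_ℂ := by
      intro s
      rw [sum_inner]
      refine Finset.sum_congr rfl fun i _ => ?_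
      rw [inner_sum]
      refine Finset.sum_congr rfl fun j _ => ?_
      rw [inner_smul_left, inner_smul_right]
      ring
    simp only [h1]
    rw [Finset.mul_sum, Finset.sum_comm]
    refine Finset.sum_congr rfl fun i _ => ?_
    rw [Finset.sum_comm]
    simp only [← Finset.sum_mul, sum_char2]
    simp
  exact_mod_cast key

/-- Key averaging inequality. -/
lemma avg_ineq (w : Fin n → Fin n → W) (v : Fin n → W)
    (h : ∀ x : Fin n → ℂ, ‖∑ i, ∑ k, (x i * conj (x k)) • w i k‖ ^ 2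
      ≤ (∑ i, ‖x i‖ ^ 2) * ‖∑ i, x i • v i‖ ^ 2) :
    ‖∑ i, w i i‖ ^ 2 + ∑ i, ∑ k, ‖w i k‖ ^ 2 ≤ (n + 1) * ∑ i, ‖v i‖ ^ 2 := by
  -- the diagonal terms
  have hdiag : ∀ i, ‖w i i‖ ^ 2 ≤ ‖v i‖ ^ 2 := by
    intro i
    have := h (Pi.single i 1)
    have h1 : ∑ j, ∑ k, ((Pi.single i (1:ℂ) : Fin n → ℂ) j *
        conj ((Pi.single i (1:ℂ) : Fin n → ℂ) k)) • w j k = w i i := by
      rw [Finset.sum_eq_single i]
      · rw [Finset.sum_eq_single i]
        · simp
        · intro k _ hk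
          simp [hk]
        · simp
      · intro j _ hj
        simp [hj]
      · simp
    have h2 : ∑ j, (Pi.single i (1:ℂ) : Fin n → ℂ) j • v j = v i := by
      rw [Finset.sum_eq_single i]
      · simp
      · intro j _ hj
        simp [hj]
      · simp
    have h3 : ∑ j, ‖(Pi.single i (1:ℂ) : Fin n → ℂ) j‖ ^ 2 = 1 := by
      rw [Finset.sum_eq_single i]
      · simp
      · intro j _ hj
        simp [hj]
      · simp
    rw [h1, h2, h3, one_mul] at this
    exact this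
  -- averaging of the right-hand side
  have hv : ∑ s : Fin n → ZMod 3, ‖∑ i, zc (s i) • v i‖ ^ 2 = 3 ^ n * ∑ i, ‖v i‖ ^ 2 :=
    design_identity2 v
  have hsum : ∑ s : Fin n → ZMod 3, ‖∑ i, ∑ k, (zc (s i) * conj (zc (s k))) • w i k‖ ^ 2
      ≤ ∑ s : Fin n → ZMod 3, (n:ℝ) * ‖∑ i, zc (s i) • v i‖ ^ 2 := by
    refine Finset.sum_le_sum fun s _ => ?_
    refine (h (fun i => zc (s i))).trans (le_of_eq ?_)
    simp
  rw [design_identity, ← Finset.mul_sum, hv] at hsum
  have h3 : (0:ℝ) < 3 ^ n := by positivity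
  have h4 : ‖∑ i, w i i‖ ^ 2 + ∑ i, ∑ k, ‖w i k‖ ^ 2 - ∑ i, ‖w i i‖ ^ 2
      ≤ n * ∑ i, ‖v i‖ ^ 2 := by
    have : 3 ^ n * (‖∑ i, w i i‖ ^ 2 + ∑ i, ∑ k, ‖w i k‖ ^ 2 - ∑ i, ‖w i i‖ ^ 2)
      ≤ 3 ^ n * (n * ∑ i, ‖v i‖ ^ 2) := by linarith [hsum]
    exact le_of_mul_le_mul_left this h3
  have h5 : ∑ i, ‖w i i‖ ^ 2 ≤ ∑ i, ‖v i‖ ^ 2 := Finset.sum_le_sum fun i _ => hdiag i
  linarith

end Pool.Agent.H39Alpha
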