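import Pool.Agent.H39Alpha.LowerL2

/-! The lower bound `√(n/2) ≤ α(ℓ_∞ⁿ)` from anticommuting self-adjoint unitaries. -/

namespace Pool.Agent.H39Alpha

open scoped ENNReal InnerProductSpace ComplexConjugate Matrix

universe v

variable {n m : ℕ}

section
variable {ι : Type*}

/-- anticommuting self-adjoint unitaries `C_k + C_k^*` -/
noncomputable def spn (e : ι ≃ Finset (Fin n)) (k : Fin n) : Matrix ι ι ℂ := cr e k + (cr e k)ᴴ

lemma spn_conjTranspose (e : ι ≃ Finset (Fin n)) (k : Fin n) : (spn e k)ᴴ = spn e k := by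
  rw [spn, Matrix.conjTranspose_add, Matrix.conjTranspose_conjTranspose, add_comm]

variable [Fintype ι]

/-- symmetric difference with `{k}` -/
def flp (k : Fin n) (S : Finset (Fin n)) : Finset (Fin n) :=
  if k ∈ S then S.erase k else insert k S

lemma flp_flp (k : Fin n) (S : Finset (Fin n)) : flp k (flp k S) = S := by
  by_cases hk : k ∈ S
  · simp [flp, hk]
  · simp [flp, hk]

lemma spn_mulVec (e : ι ≃ Finset (Fin n)) (k : Fin n) (φ : ι → ℂ) (i : ι) :
    (spn e k *ᵥ φ) i = sgn k (e i) * φ (e.symm (flp k (e i))) := by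
  rw [spn, Matrix.add_mulVec, Pi.add_apply, cr_mulVec, crH_mulVec]
  by_cases hk : k ∈ e i
  · simp [hk, flp]
  · simp [hk, flp]

lemma spn_apply (e : ι ≃ Finset (Fin n)) (k : Fin n) (i j : ι) :
    spn e k i j = if e j = flp k (e i) then sgn k (e i) else 0 := by
  classical
  have h := spn_mulVec e k (Pi.single j 1) i
  rw [Matrix.mulVec_single_one] at h
  rw [Matrix.col_apply] at h
  rw [h]
  by_cases hj : e j = flp k (e i)
  · have : j = e.symm (flp k (e i)) := by rw [← hj]; simp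
    simp [this]
  · have : e.symm (flp k (e i)) ≠ j := fun h => hj (by rw [← h]; simp)
    simp [hj, this]

variable [DecidableEq ι]

lemma sgn_flp_self (k : Fin n) (S : Finset (Fin n)) : sgn k (flp k S) = sgn k S := by
  by_cases hk : k ∈ S
  · simp [flp, hk, sgn_erase_self]
  · simp [flp, hk, sgn_insert_self]

lemma sgn_flp_lt {k l : Fin n} (S : Finset (Fin n)) (h : k < l) :
    sgn l (flp k S) = - sgn l S := by
  by_cases hk : k ∈ S
  · simp [flp, hk, sgn_erase_lt hk h]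
  · simp [flp, hk, sgn_insert_lt hk h]

lemma sgn_flp_gt {k l : Fin n} (S : Finset (Fin n)) (h : l < k) :
    sgn l (flp k S) = sgn l S := by
  by_cases hk : k ∈ S
  · simp [flp, hk, sgn_erase_gt hk h]
  · simp [flp, hk, sgn_insert_gt h]

lemma flp_comm {k l : Fin n} (S : Finset (Fin n)) (h : k ≠ l) :
    flp l (flp k S) = flp k (flp l S) := by
  ext x
  by_cases hk : k ∈ S <;> by_cases hl : l ∈ S <;>
    by_cases hxk : x = k <;> by_cases hxl : x = l <;> simp_all [flp, Ne.symm]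

lemma spn_anticomm (e : ι ≃ Finset (Fin n)) (k l : Fin n) :
    spn e k * spn e l + spn e l * spn e k = if k = l then (2:ℂ) • 1 else 0 := by
  have key : ∀ φ : ι → ℂ, (spn e k * spn e l + spn e l * spn e k) *ᵥ φ
      = (if k = l then (2:ℂ) • (1 : Matrix ι ι ℂ) else 0) *ᵥ φ := by
    intro φ
    ext i
    rw [Matrix.add_mulVec, ← Matrix.mulVec_mulVec, ← Matrix.mulVec_mulVec, Pi.add_apply,
      spn_mulVec, spn_mulVec, spn_mulVec, spn_mulVec]
    simp only [Equiv.apply_symm_apply]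
    by_cases hkl : k = l
    · subst hkl
      simp only [if_true, flp_flp, Equiv.symm_apply_apply, sgn_flp_self]
      rw [← mul_assoc, sgn_mul_self, Matrix.smul_mulVec, Matrix.one_mulVec, Pi.smul_apply,
        smul_eq_mul]
      ring
    · simp only [hkl, if_false, Matrix.zero_mulVec, Pi.zero_apply]
      rw [flp_comm (e i) hkl]
      rcases lt_or_gt_of_ne hkl with hlt | hgt
      · rw [sgn_flp_lt _ hlt, sgn_flp_gt _ hlt]
        ring
      · rw [sgn_flp_gt _ hgt, sgn_flp_lt _ hgt]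
        ring
  exact Matrix.ext_of_mulVec_single fun i => key _

lemma sum_spn (e : ι ≃ Finset (Fin n)) (y : Fin n → ℂ) :
    (∑ k, y k • spn e k)ᴴ * (∑ k, y k • spn e k) + (∑ k, y k • spn e k) * (∑ k, y k • spn e k)ᴴ
      = ((2 * ∑ k, ‖y k‖ ^ 2 : ℝ) : ℂ) • (1 : Matrix ι ι ℂ) := by
  rw [Matrix.conjTranspose_sum]
  simp only [Matrix.conjTranspose_smul, Finset.sum_mul_sum, spn_conjTranspose]
  rw [Finset.sum_comm (f := fun i j => y i • spn e i * star (y j) • spn e j),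
    ← Finset.sum_add_distrib]
  have h1 : ∀ k l, (star (y k) • spn e k) * (y l • spn e l)
      + (y l • spn e l) * (star (y k) • spn e k)
      = if k = l then (2 * (star (y k) * y k)) • (1 : Matrix ι ι ℂ) else 0 := by
    intro k l
    rw [smul_mul_smul_comm, smul_mul_smul_comm, mul_comm (y l), ← smul_add, spn_anticomm]
    by_cases hkl : k = l
    · simp [hkl, smul_smul, mul_comm]
    · simp [hkl]
  simp only [← Finset.sum_add_distrib, h1]
  simp only [Finset.sum_ite_eq, Finset.mem_univ, if_true]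
  rw [← Finset.sum_smul]
  congr 1
  push_cast
  rw [Finset.mul_sum]
  refine Finset.sum_congr rfl fun k _ => ?_
  congr 1
  exact Complex.conj_mul' (y k)

lemma norm_spn_le (e : ι ≃ Finset (Fin n)) (y : Fin n → ℂ) :
    ‖Matrix.toEuclideanCLM (𝕜 := ℂ) (∑ k, y k • spn e k)‖
      ≤ Real.sqrt (2 * ∑ k, ‖y k‖ ^ 2) := by
  refine ContinuousLinearMap.opNorm_le_bound _ (Real.sqrt_nonneg _) fun v => ?_
  have h0 : 0 ≤ 2 * ∑ k, ‖y k‖ ^ 2 :=
    mul_nonneg zero_le_two (Finset.sum_nonneg fun i _ => by positivity)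
  have h := norm_sq_le_of_anticomm (Matrix.toEuclideanCLM (𝕜 := ℂ) (∑ k, y k • spn e k))
    (2 * ∑ k, ‖y k‖ ^ 2) (by
      rw [← map_star, ← map_mul, ← map_mul, ← map_add, Matrix.star_eq_conjTranspose, sum_spn,
        map_smul, map_one]) v
  rw [← sq_le_sq₀ (norm_nonneg _) (by positivity), mul_pow, Real.sq_sqrt h0]
  exact h

/-- the matrices are isometries -/
lemma norm_spn_single_le (e : ι ≃ Finset (Fin n)) (k : Fin n) :
    ‖Matrix.toEuclideanCLM (𝕜 := ℂ) (spn e k)‖ ≤ 1 := by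
  have h := norm_spn_le e (Pi.single k 1)
  refine ContinuousLinearMap.opNorm_le_bound _ zero_le_one fun v => ?_
  have h1 : star (spn e k) * spn e k = 1 := by
    rw [Matrix.star_eq_conjTranspose, spn_conjTranspose]
    have h := spn_anticomm e k k
    rw [if_pos rfl, ← two_smul ℂ] at h
    exact smul_right_injective _ (two_ne_zero' ℂ) h
  have h2 : star (spn e k) * spn e k + spn e k * star (spn e k)
      = (((2 : ℝ)) : ℂ) • (1 : Matrix ι ι ℂ) := by
    have h := spn_anticomm e k k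
    rw [if_pos rfl] at h
    rw [Matrix.star_eq_conjTranspose, spn_conjTranspose, h]
    simp
  obtain ⟨T, hT⟩ : ∃ T, T = Matrix.toEuclideanCLM (𝕜 := ℂ) (spn e k) := ⟨_, rfl⟩
  rw [← hT]
  have h3 : (star T * T) v = v := by
    rw [hT, ← map_star, ← map_mul, h1, map_one]
    rfl
  have h4 : ⟪T v, T v⟫_ℂ = ⟪v, v⟫_ℂ := by
    rw [← ContinuousLinearMap.adjoint_inner_left, ← ContinuousLinearMap.star_eq_adjoint]
    exact congrArg (fun w => ⟪w, v⟫_ℂ) h3
  have h5 : ‖T v‖ = ‖v‖ := by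
    rw [@norm_eq_sqrt_re_inner ℂ, @norm_eq_sqrt_re_inner ℂ _ _ _ _ v, h4]
  rw [h5, one_mul]

lemma spn_single (e : ι ≃ Finset (Fin n)) (k : Fin n) (S : Finset (Fin n)) :
    Matrix.toEuclideanCLM (𝕜 := ℂ) (spn e k)
        (EuclideanSpace.single (e.symm (flp k S)) (1:ℂ))
      = sgn k S • EuclideanSpace.single (e.symm S) (1:ℂ) := by
  ext i
  rw [Matrix.ofLp_toEuclideanCLM, spn_mulVec]
  by_cases hi : i = e.symm S
  · subst hi
    simp
  · have hne : e i ≠ S := fun h => hi (by rw [← h]; simp)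
    have : flp k (e i) ≠ flp k S := by
      intro h
      apply hne
      rw [← flp_flp k (e i), h, flp_flp]
    simp [hi, this]

end

/-- the element of `M_m(ℓ_∞ⁿ)` made of the self-adjoint unitaries -/
noncomputable def spX (e1 : Fin m ≃ Finset (Fin n)) : Matrix (Fin m) (Fin m) (Fin n → ℂ) :=
  fun i j k => spn e1 k i j

lemma spX_map (e1 : Fin m ≃ Finset (Fin n)) (f : (Fin n → ℂ) →L[ℂ] ℂ) :
    (spX e1).map f = ∑ k, f (Pi.single k (1:ℂ)) • spn e1 k := by
  ext i j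
  have h : spX e1 i j = ∑ k, spn e1 k i j • Pi.single k (1:ℂ) := by
    ext l
    simp [spX, Finset.sum_apply, Pi.single_apply]
  rw [Matrix.map_apply, h, map_sum, Matrix.sum_apply]
  simp [mul_comm]

lemma sum_norm_le_norm (f : (Fin n → ℂ) →L[ℂ] ℂ) : ∑ k, ‖f (Pi.single k (1:ℂ))‖ ≤ ‖f‖ := by
  have hc : ∀ z : ℂ, ∃ c : ℂ, ‖c‖ ≤ 1 ∧ c * z = (‖z‖ : ℂ) := by
    intro z
    by_cases hz : z = 0
    · exact ⟨0, by simp, by simp [hz]⟩
    · refine ⟨conj z / ‖z‖, ?_, ?_⟩
      · rw [norm_div, RCLike.norm_conj]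
        simp [hz]
      · have hz' : (‖z‖ : ℂ) ≠ 0 := by simpa using hz
        rw [div_mul_eq_mul_div, Complex.conj_mul', sq, mul_div_assoc, div_self hz', mul_one]
  choose c hc1 hc2 using hc
  obtain ⟨z, hz⟩ : ∃ z : Fin n → ℂ, z = ∑ k, c (f (Pi.single k (1:ℂ))) • Pi.single k (1:ℂ) :=
    ⟨_, rfl⟩
  have hz1 : ‖z‖ ≤ 1 := by
    rw [pi_norm_le_iff_of_nonneg zero_le_one]
    intro k
    have : z k = c (f (Pi.single k (1:ℂ))) := by
      simp [hz, Finset.sum_apply, Pi.single_apply]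
    rw [this]
    exact hc1 _
  have h1 : f z = ((∑ k, ‖f (Pi.single k (1:ℂ))‖ : ℝ) : ℂ) := by
    rw [hz, map_sum]
    push_cast
    refine Finset.sum_congr rfl fun k _ => ?_
    rw [map_smul, smul_eq_mul, hc2]
  have h2 := f.le_opNorm z
  rw [h1] at h2
  have h0 : 0 ≤ ∑ k, ‖f (Pi.single k (1:ℂ))‖ := Finset.sum_nonneg fun i _ => norm_nonneg _
  have h3 : ‖((∑ k, ‖f (Pi.single k (1:ℂ))‖ : ℝ) : ℂ)‖ = ∑ k, ‖f (Pi.single k (1:ℂ))‖ := by
    rw [Complex.norm_real, Real.norm_eq_abs, abs_of_nonneg h0]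
  rw [h3] at h2
  exact h2.trans (mul_le_of_le_one_right (norm_nonneg _) hz1)

lemma minNorm_spX (e1 : Fin m ≃ Finset (Fin n)) : minNorm (spX e1) ≤ 1 := by
  refine iSup₂_le fun f hf => ?_
  rw [← ENNReal.ofReal_one]
  apply ENNReal.ofReal_le_ofReal
  rw [spX_map, map_sum]
  refine (norm_sum_le _ _).trans ?_
  refine le_trans (Finset.sum_le_sum fun k _ => ?_) ((sum_norm_le_norm f).trans hf)
  rw [map_smul, norm_smul]
  exact mul_le_of_le_one_right (norm_nonneg _) (norm_spn_single_le e1 k)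

/-- a multiple of the contraction from `ℓ_∞ⁿ` -/
noncomputable def spV {ι : Type v} [Fintype ι] [DecidableEq ι] (e2 : ι ≃ Finset (Fin n)) :
    (Fin n → ℂ) →L[ℂ] (EuclideanSpace ℂ ι →L[ℂ] EuclideanSpace ℂ ι) :=
  LinearMap.mkContinuous
    { toFun := fun y => Matrix.toEuclideanCLM (𝕜 := ℂ) (∑ k, y k • spn e2 k)
      map_add' := fun y z => by
        rw [← map_add, ← Finset.sum_add_distrib]
        simp [add_smul]
      map_smul' := fun c y => by
        rw [← map_smul, Finset.smul_sum]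
        simp [smul_smul] } (Real.sqrt (2 * n)) (fun y => by
      have h1 := norm_spn_le e2 y
      have h2 : Real.sqrt (2 * ∑ k, ‖y k‖ ^ 2) ≤ Real.sqrt (2 * n) * ‖y‖ := by
        rw [Real.sqrt_le_left (by positivity), mul_pow, Real.sq_sqrt (by positivity), mul_assoc]
        gcongr
        calc ∑ k, ‖y k‖ ^ 2 ≤ ∑ k : Fin n, ‖y‖ ^ 2 := by
              gcongr with k
              exact norm_le_pi_norm y k
          _ = n * ‖y‖ ^ 2 := by simp
      exact h1.trans h2)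

lemma spV_apply {ι : Type v} [Fintype ι] [DecidableEq ι] (e2 : ι ≃ Finset (Fin n))
    (y : Fin n → ℂ) :
    spV e2 y = Matrix.toEuclideanCLM (𝕜 := ℂ) (∑ k, y k • spn e2 k) := rfl

/-- the contraction from `ℓ_∞ⁿ` -/
noncomputable def spU {ι : Type v} [Fintype ι] [DecidableEq ι] (e2 : ι ≃ Finset (Fin n)) :
    (Fin n → ℂ) →L[ℂ] (EuclideanSpace ℂ ι →L[ℂ] EuclideanSpace ℂ ι) :=
  (((Real.sqrt (2 * n))⁻¹ : ℝ) : ℂ) • spV e2

lemma norm_spU_le {ι : Type v} [Fintype ι] [DecidableEq ι] (hn : 1 ≤ n)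
    (e2 : ι ≃ Finset (Fin n)) : ‖spU e2‖ ≤ 1 := by
  have hn' : (1 : ℝ) ≤ n := by exact_mod_cast hn
  have hpos : 0 < Real.sqrt (2 * n) := Real.sqrt_pos.mpr (by linarith)
  have h1 : ‖spV e2‖ ≤ Real.sqrt (2 * n) := LinearMap.mkContinuous_norm_le _ hpos.le _
  refine ContinuousLinearMap.opNorm_le_bound _ zero_le_one fun y => ?_
  have h2 : spU e2 y = (((Real.sqrt (2 * n))⁻¹ : ℝ) : ℂ) • spV e2 y := rfl
  rw [h2, norm_smul, Complex.norm_real, Real.norm_eq_abs, abs_of_pos (inv_pos.mpr hpos)]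
  calc (Real.sqrt (2 * n))⁻¹ * ‖spV e2 y‖
      ≤ (Real.sqrt (2 * n))⁻¹ * (Real.sqrt (2 * n) * ‖y‖) := by
        gcongr
        exact (spV e2).le_of_opNorm_le h1 y
    _ = 1 * ‖y‖ := by rw [← mul_assoc, inv_mul_cancel₀ hpos.ne']

/-- the test vector: the sum of all `e_S ⊗ e_S` -/
noncomputable def testW {ι : Type v} [Fintype ι] [DecidableEq ι] (e1 : Fin m ≃ Finset (Fin n))
    (e2 : ι ≃ Finset (Fin n)) : PiLp 2 (fun _ : Fin m => EuclideanSpace ℂ ι) :=
  WithLp.toLp 2 (fun j => EuclideanSpace.single (e2.symm (e1 j)) 1)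

lemma blockOp_testW {ι : Type v} [Fintype ι] [DecidableEq ι] (e1 : Fin m ≃ Finset (Fin n))
    (e2 : ι ≃ Finset (Fin n)) :
    blockOp ((spX e1).map (spV e2)) (testW e1 e2) = (n : ℂ) • testW e1 e2 := by
  apply PiLp.ext
  intro i
  rw [blockOp_apply]
  have h1 : ∀ j, ((spX e1).map (spV e2)) i j ((testW e1 e2) j)
      = ∑ k, spn e1 k i j • (Matrix.toEuclideanCLM (𝕜 := ℂ) (spn e2 k)) ((testW e1 e2) j) := by
    intro j
    rw [Matrix.map_apply, spV_apply, map_sum, sum_apply]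
    refine Finset.sum_congr rfl fun k _ => ?_
    rw [map_smul, smul_apply]
    rfl
  simp only [h1]
  rw [Finset.sum_comm]
  have h2 : ∀ k, ∑ j, spn e1 k i j • (Matrix.toEuclideanCLM (𝕜 := ℂ) (spn e2 k))
      ((testW e1 e2) j) = (testW e1 e2) i := by
    intro k
    rw [Finset.sum_eq_single (e1.symm (flp k (e1 i)))]
    · rw [spn_apply, if_pos (by simp)]
      have e3 : (testW e1 e2) (e1.symm (flp k (e1 i)))
          = EuclideanSpace.single (e2.symm (flp k (e1 i))) (1:ℂ) := by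
        simp [testW]
      rw [e3, spn_single, smul_smul, sgn_mul_self, one_smul]
      simp [testW]
    · intro j _ hj
      have : e1 j ≠ flp k (e1 i) := fun h => hj (by rw [← h]; simp)
      rw [spn_apply, if_neg this, zero_smul]
    · simp
  simp only [h2]
  rw [Finset.sum_const, Finset.card_univ, Fintype.card_fin, PiLp.smul_apply,
    ← Nat.cast_smul_eq_nsmul ℂ]

lemma testW_ne_zero {ι : Type v} [Fintype ι] [DecidableEq ι] (e1 : Fin m ≃ Finset (Fin n))
    (e2 : ι ≃ Finset (Fin n)) : testW e1 e2 ≠ 0 := by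
  intro h
  have h1 : (testW e1 e2) (e1.symm ∅) = 0 := by rw [h]; rfl
  have h2 : (testW e1 e2) (e1.symm ∅) = EuclideanSpace.single (e2.symm ∅) (1:ℂ) := by
    simp [testW]
  rw [h2] at h1
  have h3 := congrArg norm h1
  simp at h3

theorem le_alpha_linf (n : ℕ) (hn : 1 ≤ n) :
    ENNReal.ofReal (Real.sqrt ((n : ℝ) / 2)) ≤ alpha.{v} (Fin n → ℂ) := by
  obtain ⟨e1⟩ : Nonempty (Fin (Fintype.card (Finset (Fin n))) ≃ Finset (Fin n)) :=
    ⟨(Fintype.equivFin _).symm⟩
  have e2 : ULift.{v} (Finset (Fin n)) ≃ Finset (Fin n) := Equiv.ulift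
  refine le_trans ?_ (le_iSup₂_of_le _ (spX e1) (le_iSup (fun _ => maxNorm.{v} (spX e1))
    (minNorm_spX e1)))
  refine le_trans ?_ (le_iSup_of_le (EuclideanSpace ℂ (ULift.{v} (Finset (Fin n))))
    (le_iSup_of_le inferInstance (le_iSup_of_le inferInstance (le_iSup_of_le inferInstance
      (le_iSup₂_of_le (spU e2) (norm_spU_le hn e2) le_rfl)))))
  apply ENNReal.ofReal_le_ofReal
  have hn' : (1 : ℝ) ≤ n := by exact_mod_cast hn
  have hpos : 0 < Real.sqrt (2 * n) := Real.sqrt_pos.mpr (by linarith)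
  have h0 : (spX e1).map (spU e2)
      = (((Real.sqrt (2 * n))⁻¹ : ℝ) : ℂ) • (spX e1).map (spV e2) := by
    ext i j : 2
    rfl
  rw [h0, blockOp_smul, norm_smul, Complex.norm_real, Real.norm_eq_abs,
    abs_of_pos (inv_pos.mpr hpos)]
  have h1 := (blockOp ((spX e1).map (spV e2))).le_opNorm (testW e1 e2)
  rw [blockOp_testW, norm_smul] at h1
  have h2 : ‖(n : ℂ)‖ = (n : ℝ) := by simp
  rw [h2] at h1
  have h3 : 0 < ‖testW e1 e2‖ := norm_pos_iff.mpr (testW_ne_zero e1 e2)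
  have h4 := le_of_mul_le_mul_right h1 h3
  have h5 : Real.sqrt ((n : ℝ) / 2) = (Real.sqrt (2 * n))⁻¹ * n := by
    rw [inv_mul_eq_div, eq_div_iff hpos.ne', ← Real.sqrt_mul (by positivity)]
    have : (n : ℝ) / 2 * (2 * n) = n ^ 2 := by ring
    rw [this, Real.sqrt_sq (by positivity)]
  rw [h5]
  gcongr

end Pool.Agent.H39Alpha
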