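import Pool.Agent.H39Alpha.Connect
import Pool.Agent.H39Alpha.LowerLInf

/-! A lower bound of `α(ℓ_∞ⁿ)` from a family of `n` contractive matrices. -/

namespace Pool.Agent.H39Alpha

open scoped ENNReal InnerProductSpace ComplexConjugate Matrix

universe v

variable {n m : ℕ}

section
variable {ι : Type*} [Fintype ι] [DecidableEq ι]

lemma norm_submatrix_le (e : ι ≃ Fin m) (M : Matrix (Fin m) (Fin m) ℂ) :
    ‖Matrix.toEuclideanCLM (𝕜 := ℂ) (M.submatrix e e)‖ ≤ ‖Matrix.toEuclideanCLM (𝕜 := ℂ) M‖ := by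
  refine ContinuousLinearMap.opNorm_le_bound _ (norm_nonneg _) fun w => ?_
  obtain ⟨w', hw'⟩ : ∃ w' : EuclideanSpace ℂ (Fin m), w' = WithLp.toLp 2 (fun k => w (e.symm k)) :=
    ⟨_, rfl⟩
  have h1 : ‖w'‖ = ‖w‖ := by
    rw [EuclideanSpace.norm_eq, EuclideanSpace.norm_eq]
    congr 1
    rw [hw']
    exact Equiv.sum_comp e.symm (fun i => ‖w i‖ ^ 2)
  have h2 : ‖Matrix.toEuclideanCLM (𝕜 := ℂ) (M.submatrix e e) w‖
      = ‖Matrix.toEuclideanCLM (𝕜 := ℂ) M w'‖ := by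
    rw [EuclideanSpace.norm_eq, EuclideanSpace.norm_eq]
    congr 1
    rw [← Equiv.sum_comp e (fun i => ‖(Matrix.toEuclideanCLM (𝕜 := ℂ) M w') i‖ ^ 2)]
    refine Finset.sum_congr rfl fun i _ => ?_
    congr 2
    rw [Matrix.ofLp_toEuclideanCLM, Matrix.ofLp_toEuclideanCLM, hw']
    simp only [Matrix.mulVec, dotProduct, Matrix.submatrix_apply]
    rw [← Equiv.sum_comp e]
    simp
  rw [h2, ← h1]
  exact ContinuousLinearMap.le_opNorm _ _

end

/-- the element of `M_m(ℓ_∞ⁿ)` with coordinates the conjugates of the matrices `b k` -/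
noncomputable def famX (b : Fin n → Matrix (Fin m) (Fin m) ℂ) :
    Matrix (Fin m) (Fin m) (Fin n → ℂ) :=
  fun i j k => conj (b k i j)

lemma famX_map (b : Fin n → Matrix (Fin m) (Fin m) ℂ) (f : (Fin n → ℂ) →L[ℂ] ℂ) :
    (famX b).map f = ∑ k, f (Pi.single k (1:ℂ)) • (b k).map conj := by
  ext i j
  have h : famX b i j = ∑ k, conj (b k i j) • Pi.single k (1:ℂ) := by
    ext l
    simp [famX, Finset.sum_apply, Pi.single_apply]
  rw [Matrix.map_apply, h, map_sum, Matrix.sum_apply]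
  simp [mul_comm]

lemma minNorm_famX (b : Fin n → Matrix (Fin m) (Fin m) ℂ)
    (hb : ∀ k, ‖Matrix.toEuclideanCLM (𝕜 := ℂ) ((b k).map conj)‖ ≤ 1) :
    minNorm (famX b) ≤ 1 := by
  refine iSup₂_le fun f hf => ?_
  rw [← ENNReal.ofReal_one]
  apply ENNReal.ofReal_le_ofReal
  rw [famX_map, map_sum]
  refine (norm_sum_le _ _).trans ?_
  refine le_trans (Finset.sum_le_sum fun k _ => ?_) ((sum_norm_le_norm f).trans hf)
  rw [map_smul, norm_smul]
  exact mul_le_of_le_one_right (norm_nonneg _) (hb k)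

section
variable {ι : Type v} [Fintype ι] [DecidableEq ι]

/-- the map from `ℓ_∞ⁿ` given by the matrices `b k` -/
noncomputable def famV (e : ι ≃ Fin m) (b : Fin n → Matrix (Fin m) (Fin m) ℂ) (C : ℝ)
    (hC : ∀ y : Fin n → ℂ, ‖Matrix.toEuclideanCLM (𝕜 := ℂ) (∑ k, y k • b k)‖ ≤ C * ‖y‖) :
    (Fin n → ℂ) →L[ℂ] (EuclideanSpace ℂ ι →L[ℂ] EuclideanSpace ℂ ι) :=
  LinearMap.mkContinuous
    { toFun := fun y => Matrix.toEuclideanCLM (𝕜 := ℂ) ((∑ k, y k • b k).submatrix e e)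
      map_add' := fun y z => by
        rw [← map_add]
        congr 1
        ext i j
        simp [Matrix.sum_apply, add_mul, Finset.sum_add_distrib]
      map_smul' := fun c y => by
        rw [← map_smul]
        congr 1
        ext i j
        simp [Matrix.sum_apply, Finset.mul_sum, mul_assoc] } C (fun y => by
      exact (norm_submatrix_le e _).trans (hC y))

lemma famV_apply (e : ι ≃ Fin m) (b : Fin n → Matrix (Fin m) (Fin m) ℂ) (C : ℝ)
    (hC : ∀ y : Fin n → ℂ, ‖Matrix.toEuclideanCLM (𝕜 := ℂ) (∑ k, y k • b k)‖ ≤ C * ‖y‖)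
    (y : Fin n → ℂ) : famV e b C hC y
      = Matrix.toEuclideanCLM (𝕜 := ℂ) ((∑ k, y k • b k).submatrix e e) := rfl

/-- the test vector: the sum of all `e_j ⊗ e_j` -/
noncomputable def diagW (e : ι ≃ Fin m) : PiLp 2 (fun _ : Fin m => EuclideanSpace ℂ ι) :=
  WithLp.toLp 2 (fun j => EuclideanSpace.single (e.symm j) 1)

lemma norm_diagW_sq (e : ι ≃ Fin m) : ‖diagW e‖ ^ 2 = m := by
  rw [PiLp.norm_sq_eq_of_L2]
  simp [diagW]

lemma inner_diagW (e : ι ≃ Fin m) (b : Fin n → Matrix (Fin m) (Fin m) ℂ) (C : ℝ)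
    (hC : ∀ y : Fin n → ℂ, ‖Matrix.toEuclideanCLM (𝕜 := ℂ) (∑ k, y k • b k)‖ ≤ C * ‖y‖) :
    ⟪diagW e, blockOp ((famX b).map (famV e b C hC)) (diagW e)⟫_ℂ
      = ((∑ i, ∑ j, ∑ k, ‖b k i j‖ ^ 2 : ℝ) : ℂ) := by
  rw [PiLp.inner_apply]
  push_cast
  refine Finset.sum_congr rfl fun i _ => ?_
  rw [blockOp_apply, inner_sum]
  refine Finset.sum_congr rfl fun j _ => ?_
  have h1 : ∀ l, (diagW e) l = EuclideanSpace.single (e.symm l) (1:ℂ) := fun l => rfl
  rw [h1, h1, Matrix.map_apply, famV_apply, EuclideanSpace.inner_single_left, map_one, one_mul,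
    Matrix.ofLp_toEuclideanCLM]
  have h2 : (WithLp.ofLp (EuclideanSpace.single (e.symm j) (1:ℂ)) : ι → ℂ)
      = Pi.single (e.symm j) 1 := rfl
  rw [h2, Matrix.mulVec_single_one, Matrix.col_apply, Matrix.submatrix_apply,
    Equiv.apply_symm_apply, Equiv.apply_symm_apply, Matrix.sum_apply]
  refine Finset.sum_congr rfl fun k _ => ?_
  rw [Matrix.smul_apply, smul_eq_mul]
  exact Complex.conj_mul' (b k i j)

end

/-- A family of contractive matrices bounds `α(ℓ_∞ⁿ)` from below. -/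
theorem le_alpha_of_family (hm : 0 < m) (b : Fin n → Matrix (Fin m) (Fin m) ℂ)
    (hb : ∀ k, ‖Matrix.toEuclideanCLM (𝕜 := ℂ) ((b k).map conj)‖ ≤ 1) (C : ℝ) (hC0 : 0 < C)
    (hC : ∀ y : Fin n → ℂ, ‖Matrix.toEuclideanCLM (𝕜 := ℂ) (∑ k, y k • b k)‖ ≤ C * ‖y‖) :
    ENNReal.ofReal ((∑ i, ∑ j, ∑ k, ‖b k i j‖ ^ 2) / (m * C)) ≤ alpha.{v} (Fin n → ℂ) := by
  have e : ULift.{v} (Fin m) ≃ Fin m := Equiv.ulift
  obtain ⟨U, hU⟩ : ∃ U : (Fin n → ℂ) →L[ℂ] (EuclideanSpace ℂ (ULift.{v} (Fin m)) →L[ℂ]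
      EuclideanSpace ℂ (ULift.{v} (Fin m))), U = ((C⁻¹ : ℝ) : ℂ) • famV e b C hC := ⟨_, rfl⟩
  have hU1 : ‖U‖ ≤ 1 := by
    refine ContinuousLinearMap.opNorm_le_bound _ zero_le_one fun y => ?_
    have h2 : U y = ((C⁻¹ : ℝ) : ℂ) • famV e b C hC y := by rw [hU]; rfl
    rw [h2, norm_smul, Complex.norm_real, Real.norm_eq_abs, abs_of_pos (inv_pos.mpr hC0)]
    have h1 : ‖famV e b C hC‖ ≤ C := LinearMap.mkContinuous_norm_le _ hC0.le _
    calc C⁻¹ * ‖famV e b C hC y‖ ≤ C⁻¹ * (C * ‖y‖) := by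
          gcongr
          exact (famV e b C hC).le_of_opNorm_le h1 y
      _ = 1 * ‖y‖ := by rw [← mul_assoc, inv_mul_cancel₀ hC0.ne']
  refine le_trans ?_ (le_iSup₂_of_le _ (famX b) (le_iSup (fun _ => maxNorm.{v} (famX b))
    (minNorm_famX b hb)))
  refine le_trans ?_ (le_iSup_of_le (EuclideanSpace ℂ (ULift.{v} (Fin m)))
    (le_iSup_of_le inferInstance (le_iSup_of_le inferInstance (le_iSup_of_le inferInstance
      (le_iSup₂_of_le U hU1 le_rfl)))))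
  apply ENNReal.ofReal_le_ofReal
  have h0 : (famX b).map U = ((C⁻¹ : ℝ) : ℂ) • (famX b).map (famV e b C hC) := by
    ext i j : 2
    rw [hU]
    rfl
  rw [h0, blockOp_smul, norm_smul, Complex.norm_real, Real.norm_eq_abs,
    abs_of_pos (inv_pos.mpr hC0)]
  have hm' : (0 : ℝ) < m := by exact_mod_cast hm
  have h1 : (∑ i, ∑ j, ∑ k, ‖b k i j‖ ^ 2) ≤ ‖blockOp ((famX b).map (famV e b C hC))‖ * m := by
    have h2 := norm_inner_le_norm (𝕜 := ℂ) (diagW e)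
      (blockOp ((famX b).map (famV e b C hC)) (diagW e))
    rw [inner_diagW, Complex.norm_real, Real.norm_eq_abs, abs_of_nonneg (by positivity)] at h2
    have h3 := (blockOp ((famX b).map (famV e b C hC))).le_opNorm (diagW e)
    calc (∑ i, ∑ j, ∑ k, ‖b k i j‖ ^ 2)
        ≤ ‖diagW e‖ * ‖blockOp ((famX b).map (famV e b C hC)) (diagW e)‖ := h2
      _ ≤ ‖diagW e‖ * (‖blockOp ((famX b).map (famV e b C hC))‖ * ‖diagW e‖) := by gcongr
      _ = ‖blockOp ((famX b).map (famV e b C hC))‖ * ‖diagW e‖ ^ 2 := by ring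
      _ = ‖blockOp ((famX b).map (famV e b C hC))‖ * m := by rw [norm_diagW_sq]
  rw [div_le_iff₀ (by positivity)]
  calc (∑ i, ∑ j, ∑ k, ‖b k i j‖ ^ 2) ≤ ‖blockOp ((famX b).map (famV e b C hC))‖ * m := h1
    _ = C⁻¹ * ‖blockOp ((famX b).map (famV e b C hC))‖ * (m * C) := by
        field_simp

end Pool.Agent.H39Alpha
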