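import Pool.Agent.H39Alpha.Connect

/-! Creation operators on the antisymmetric Fock space. -/

namespace Pool.Agent.H39Alpha

open scoped ENNReal InnerProductSpace ComplexConjugate Matrix

variable {n : ℕ}

/-- the sign of inserting `k` -/
noncomputable def sgn (k : Fin n) (S : Finset (Fin n)) : ℂ := (-1) ^ (S.filter (· < k)).card

lemma sgn_mul_self (k : Fin n) (S : Finset (Fin n)) : sgn k S * sgn k S = 1 := by
  rw [sgn, ← pow_add, ← two_mul, pow_mul]; simp

lemma conj_sgn (k : Fin n) (S : Finset (Fin n)) : star (sgn k S) = sgn k S := by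
  simp [sgn]

lemma sgn_insert_self (k : Fin n) (S : Finset (Fin n)) : sgn k (insert k S) = sgn k S := by
  rw [sgn, sgn, Finset.filter_insert]
  simp

lemma sgn_erase_self (k : Fin n) (S : Finset (Fin n)) : sgn k (S.erase k) = sgn k S := by
  rw [sgn, sgn, Finset.filter_erase, Finset.erase_eq_of_notMem]
  simp

lemma sgn_insert_lt {k l : Fin n} {S : Finset (Fin n)} (hl : l ∉ S) (hlk : l < k) :
    sgn k (insert l S) = - sgn k S := by
  rw [sgn, sgn, Finset.filter_insert, if_pos hlk, Finset.card_insert_of_notMem, pow_succ]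
  · ring
  · simp [hl]

lemma sgn_insert_gt {k l : Fin n} {S : Finset (Fin n)} (hlk : k < l) :
    sgn k (insert l S) = sgn k S := by
  rw [sgn, sgn, Finset.filter_insert, if_neg (not_lt.mpr hlk.le)]

lemma sgn_erase_lt {k l : Fin n} {S : Finset (Fin n)} (hl : l ∈ S) (hlk : l < k) :
    sgn k (S.erase l) = - sgn k S := by
  have h := sgn_insert_lt (k := k) (S := S.erase l) (Finset.notMem_erase l S) hlk
  rw [Finset.insert_erase hl] at h
  rw [h, neg_neg]

lemma sgn_erase_gt {k l : Fin n} {S : Finset (Fin n)} (hl : l ∈ S) (hlk : k < l) :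
    sgn k (S.erase l) = sgn k S := by
  have h := sgn_insert_gt (k := k) (S := S.erase l) hlk
  rw [Finset.insert_erase hl] at h
  exact h.symm

variable {ι : Type*} [Fintype ι]

/-- the matrices of the creation operators on the antisymmetric Fock space over `ℂⁿ`. -/
noncomputable def cr (e : ι ≃ Finset (Fin n)) (k : Fin n) : Matrix ι ι ℂ := fun i j =>
  if k ∈ e i ∧ e j = (e i).erase k then sgn k (e i) else 0

lemma cr_mulVec (e : ι ≃ Finset (Fin n)) (k : Fin n) (φ : ι → ℂ) (i : ι) :
    (cr e k *ᵥ φ) i = if k ∈ e i then sgn k (e i) * φ (e.symm ((e i).erase k)) else 0 := by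
  rw [Matrix.mulVec, dotProduct]
  by_cases hk : k ∈ e i
  · rw [Finset.sum_eq_single (e.symm ((e i).erase k))]
    · simp [cr, hk]
    · intro j _ hj
      have : e j ≠ (e i).erase k := fun h => hj (by rw [← h]; simp)
      simp [cr, this]
    · simp
  · simp [cr, hk]

lemma crH_mulVec (e : ι ≃ Finset (Fin n)) (k : Fin n) (φ : ι → ℂ) (j : ι) :
    ((cr e k)ᴴ *ᵥ φ) j = if k ∈ e j then 0 else sgn k (e j) * φ (e.symm (insert k (e j))) := by
  rw [Matrix.mulVec, dotProduct]
  by_cases hk : k ∈ e j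
  · rw [if_pos hk]
    apply Finset.sum_eq_zero
    intro i _
    have : ¬ (k ∈ e i ∧ e j = (e i).erase k) := by
      rintro ⟨_, h⟩
      rw [h] at hk
      simp at hk
    simp [cr, Matrix.conjTranspose_apply, this]
  · rw [if_neg hk, Finset.sum_eq_single (e.symm (insert k (e j)))]
    · simp [cr, Matrix.conjTranspose_apply, hk, sgn_insert_self, conj_sgn]
    · intro i _ hi
      have : ¬ (k ∈ e i ∧ e j = (e i).erase k) := by
        rintro ⟨h1, h⟩
        apply hi
        rw [h, Finset.insert_erase h1]; simp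
      simp [cr, Matrix.conjTranspose_apply, this]
    · simp

variable [DecidableEq ι]

lemma car (e : ι ≃ Finset (Fin n)) (k l : Fin n) :
    (cr e k)ᴴ * cr e l + cr e l * (cr e k)ᴴ = if k = l then 1 else 0 := by
  have key : ∀ φ : ι → ℂ, ((cr e k)ᴴ * cr e l + cr e l * (cr e k)ᴴ) *ᵥ φ
      = (if k = l then (1 : Matrix ι ι ℂ) else 0) *ᵥ φ := by
    intro φ
    ext i
    rw [Matrix.add_mulVec, ← Matrix.mulVec_mulVec, ← Matrix.mulVec_mulVec, Pi.add_apply,
      crH_mulVec, cr_mulVec, cr_mulVec, crH_mulVec]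
    simp only [Equiv.apply_symm_apply]
    by_cases hkl : k = l
    · subst hkl
      by_cases hk : k ∈ e i
      · simp only [hk, if_true, Finset.notMem_erase, if_false, Finset.insert_erase,
          sgn_erase_self, Equiv.symm_apply_apply, Matrix.one_mulVec, zero_add]
        rw [← mul_assoc, sgn_mul_self, one_mul]
      · simp only [hk, if_false, Finset.mem_insert_self, if_true, sgn_insert_self,
          Finset.erase_insert, not_false_eq_true, Equiv.symm_apply_apply, Matrix.one_mulVec,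
          add_zero]
        rw [← mul_assoc, sgn_mul_self, one_mul]
    · have hlk : ¬ l = k := fun h => hkl h.symm
      simp only [hkl, if_false, Matrix.zero_mulVec, Pi.zero_apply]
      by_cases hk : k ∈ e i
      · have h1 : k ∈ (e i).erase l := Finset.mem_erase.mpr ⟨hkl, hk⟩
        simp [hk, h1]
      · by_cases hl : l ∈ e i
        · have h1 : k ∉ (e i).erase l := fun h => hk (Finset.mem_erase.mp h).2
          have h2 : l ∈ insert k (e i) := Finset.mem_insert_of_mem hl
          simp only [hk, hl, h1, h2, if_true, if_false]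
          rw [Finset.erase_insert_of_ne hkl]
          rcases lt_or_gt_of_ne hkl with hlt | hgt
          · rw [sgn_insert_lt hk hlt, sgn_erase_gt hl hlt]
            ring
          · rw [sgn_insert_gt hgt, sgn_erase_lt hl hgt]
            ring
        · have h2 : l ∉ insert k (e i) := by
            simp [hl, hlk]
          simp [hk, hl, h2]
  exact Matrix.ext_of_mulVec_single fun i => key _

lemma sum_cr (e : ι ≃ Finset (Fin n)) (y : Fin n → ℂ) :
    (∑ k, y k • cr e k)ᴴ * (∑ k, y k • cr e k) + (∑ k, y k • cr e k) * (∑ k, y k • cr e k)ᴴ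
      = ((∑ k, ‖y k‖ ^ 2 : ℝ) : ℂ) • (1 : Matrix ι ι ℂ) := by
  rw [Matrix.conjTranspose_sum]
  simp only [Matrix.conjTranspose_smul, Finset.sum_mul_sum]
  rw [Finset.sum_comm (f := fun i j => y i • cr e i * star (y j) • (cr e j)ᴴ),
    ← Finset.sum_add_distrib]
  have h1 : ∀ k l, (star (y k) • (cr e k)ᴴ) * (y l • cr e l)
      + (y l • cr e l) * (star (y k) • (cr e k)ᴴ)
      = if k = l then (star (y k) * y k) • (1 : Matrix ι ι ℂ) else 0 := by
    intro k l
    rw [smul_mul_smul_comm, smul_mul_smul_comm, mul_comm (y l), ← smul_add, car]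
    by_cases hkl : k = l
    · simp [hkl]
    · simp [hkl]
  simp only [← Finset.sum_add_distrib, h1]
  simp only [Finset.sum_ite_eq, Finset.mem_univ, if_true]
  rw [← Finset.sum_smul]
  congr 1
  push_cast
  refine Finset.sum_congr rfl fun k _ => ?_
  exact Complex.conj_mul' (y k)

lemma norm_sq_le_of_anticomm {V : Type*} [NormedAddCommGroup V] [InnerProductSpace ℂ V]
    [CompleteSpace V] (T : V →L[ℂ] V) (c : ℝ)
    (h : star T * T + T * star T = (c : ℂ) • (1 : V →L[ℂ] V)) : ∀ v, ‖T v‖ ^ 2 ≤ c * ‖v‖ ^ 2 := by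
  intro v
  have h1 : ⟪(star T * T + T * star T) v, v⟫_ℂ = ((c * ‖v‖ ^ 2 : ℝ) : ℂ) := by
    rw [h]
    simp
  have h2 : ⟪(star T * T + T * star T) v, v⟫_ℂ = ((‖T v‖ ^ 2 + ‖(star T) v‖ ^ 2 : ℝ) : ℂ) := by
    rw [add_apply, inner_add_left, mul_apply_eq_comp, mul_apply_eq_comp]
    have e1 : ⟪(star T) (T v), v⟫_ℂ = ((‖T v‖ ^ 2 : ℝ) : ℂ) := by
      rw [ContinuousLinearMap.star_eq_adjoint, ContinuousLinearMap.adjoint_inner_left,
        inner_self_eq_norm_sq_to_K]
      simp
    have e2 : ⟪T ((star T) v), v⟫_ℂ = ((‖(star T) v‖ ^ 2 : ℝ) : ℂ) := by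
      rw [ContinuousLinearMap.star_eq_adjoint, ← ContinuousLinearMap.adjoint_inner_right,
        inner_self_eq_norm_sq_to_K]
      simp
    rw [e1, e2]
    push_cast
    rfl
  have h3 : ‖T v‖ ^ 2 + ‖(star T) v‖ ^ 2 = c * ‖v‖ ^ 2 := by
    have := h2.symm.trans h1
    exact_mod_cast this
  nlinarith [sq_nonneg ‖(star T) v‖]

lemma norm_cr_le (e : ι ≃ Finset (Fin n)) (y : Fin n → ℂ) :
    ‖Matrix.toEuclideanCLM (𝕜 := ℂ) (∑ k, y k • cr e k)‖ ≤ Real.sqrt (∑ k, ‖y k‖ ^ 2) := by
  refine ContinuousLinearMap.opNorm_le_bound _ (Real.sqrt_nonneg _) fun v => ?_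
  have h0 : 0 ≤ ∑ k, ‖y k‖ ^ 2 := Finset.sum_nonneg fun i _ => by positivity
  have h := norm_sq_le_of_anticomm (Matrix.toEuclideanCLM (𝕜 := ℂ) (∑ k, y k • cr e k))
    (∑ k, ‖y k‖ ^ 2) (by
      rw [← map_star, ← map_mul, ← map_mul, ← map_add, Matrix.star_eq_conjTranspose, sum_cr,
        map_smul, map_one]) v
  rw [← sq_le_sq₀ (norm_nonneg _) (by positivity), mul_pow, Real.sq_sqrt h0]
  exact h

end Pool.Agent.H39Alpha
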