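import Pool.Agent.H39Alpha.Fermi

/-! The lower bound for `α(ℓ₂ⁿ)` from creation operators. -/

namespace Pool.Agent.H39Alpha

open scoped ENNReal InnerProductSpace ComplexConjugate Matrix

universe v

variable {n m : ℕ}

/-- the element of `M_m(ℓ₂ⁿ)` made of the creation operators -/
noncomputable def crX (e1 : Fin m ≃ Finset (Fin n)) :
    Matrix (Fin m) (Fin m) (EuclideanSpace ℂ (Fin n)) :=
  fun i j => WithLp.toLp 2 (fun k => cr e1 k i j)

lemma crX_map (e1 : Fin m ≃ Finset (Fin n)) (f : EuclideanSpace ℂ (Fin n) →L[ℂ] ℂ) :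
    (crX e1).map f = ∑ k, f (EuclideanSpace.single k (1:ℂ)) • cr e1 k := by
  ext i j
  have h : crX e1 i j = ∑ k, cr e1 k i j • EuclideanSpace.single k (1:ℂ) := by
    ext l
    simp [crX, Finset.sum_apply, Pi.single_apply]
  rw [Matrix.map_apply, h, map_sum, Matrix.sum_apply]
  simp [mul_comm]

lemma minNorm_crX (e1 : Fin m ≃ Finset (Fin n)) : minNorm (crX e1) ≤ 1 := by
  refine iSup₂_le fun f hf => ?_
  rw [← ENNReal.ofReal_one]
  apply ENNReal.ofReal_le_ofReal
  rw [crX_map]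
  refine (norm_cr_le e1 _).trans ?_
  obtain ⟨s, hs⟩ : ∃ s : ℝ, s = ∑ k, ‖f (EuclideanSpace.single k (1:ℂ))‖ ^ 2 := ⟨_, rfl⟩
  have hs0 : 0 ≤ s := hs ▸ Finset.sum_nonneg fun i _ => by positivity
  rw [← hs]
  obtain ⟨z, hz⟩ : ∃ z : EuclideanSpace ℂ (Fin n),
      z = ∑ k, conj (f (EuclideanSpace.single k (1:ℂ))) • EuclideanSpace.single k (1:ℂ) :=
    ⟨_, rfl⟩
  have h1 : f z = ((s : ℝ) : ℂ) := by
    rw [hz, map_sum, hs]
    push_cast
    refine Finset.sum_congr rfl fun k _ => ?_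
    rw [map_smul, smul_eq_mul]
    exact Complex.conj_mul' _
  have h2 : ‖z‖ = Real.sqrt s := by
    rw [EuclideanSpace.norm_eq, hs]
    congr 1
    refine Finset.sum_congr rfl fun k _ => ?_
    have : z k = conj (f (EuclideanSpace.single k (1:ℂ))) := by
      simp [hz, Finset.sum_apply, Pi.single_apply]
    rw [this]
    simp
  have h3 := f.le_opNorm z
  rw [h1, h2] at h3
  have h4 : s ≤ Real.sqrt s := by
    have e : ‖((s : ℝ) : ℂ)‖ = s := by simp [abs_of_nonneg hs0]
    rw [e] at h3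
    exact h3.trans (mul_le_of_le_one_left (Real.sqrt_nonneg _) hf)
  by_contra hcon
  push Not at hcon
  have h5 : Real.sqrt s * Real.sqrt s = s := Real.mul_self_sqrt hs0
  nlinarith

/-- the contraction from `ℓ₂ⁿ` into the operators on the antisymmetric Fock space -/
noncomputable def crU {ι : Type v} [Fintype ι] [DecidableEq ι] (e2 : ι ≃ Finset (Fin n)) :
    EuclideanSpace ℂ (Fin n) →L[ℂ] (EuclideanSpace ℂ ι →L[ℂ] EuclideanSpace ℂ ι) :=
  LinearMap.mkContinuous
    { toFun := fun y => Matrix.toEuclideanCLM (𝕜 := ℂ) (∑ k, y k • cr e2 k)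
      map_add' := fun y z => by
        rw [← map_add, ← Finset.sum_add_distrib]
        simp [add_smul]
      map_smul' := fun c y => by
        rw [← map_smul, Finset.smul_sum]
        simp [smul_smul] } 1 (fun y => by
      rw [one_mul, EuclideanSpace.norm_eq]
      exact norm_cr_le e2 _)

lemma norm_crU_le {ι : Type v} [Fintype ι] [DecidableEq ι] (e2 : ι ≃ Finset (Fin n)) :
    ‖crU e2‖ ≤ 1 :=
  LinearMap.mkContinuous_norm_le _ zero_le_one _

lemma crU_apply {ι : Type v} [Fintype ι] [DecidableEq ι] (e2 : ι ≃ Finset (Fin n))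
    (y : EuclideanSpace ℂ (Fin n)) :
    crU e2 y = Matrix.toEuclideanCLM (𝕜 := ℂ) (∑ k, y k • cr e2 k) := rfl

/-- the test vector -/
noncomputable def testV {ι : Type v} [Fintype ι] [DecidableEq ι] (e1 : Fin m ≃ Finset (Fin n))
    (e2 : ι ≃ Finset (Fin n)) (r : ℕ) : PiLp 2 (fun _ : Fin m => EuclideanSpace ℂ ι) :=
  WithLp.toLp 2 (fun j => if (e1 j).card = r then EuclideanSpace.single (e2.symm (e1 j)) 1 else 0)

lemma norm_testV {ι : Type v} [Fintype ι] [DecidableEq ι] (e1 : Fin m ≃ Finset (Fin n))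
    (e2 : ι ≃ Finset (Fin n)) (r : ℕ) : ‖testV e1 e2 r‖ ^ 2 = n.choose r := by
  rw [PiLp.norm_sq_eq_of_L2]
  have h1 : ∀ j, ‖(testV e1 e2 r) j‖ ^ 2 = if (e1 j).card = r then (1:ℝ) else 0 := by
    intro j
    by_cases h : (e1 j).card = r
    · simp [testV, h]
    · simp [testV, h]
  simp only [h1]
  rw [← Equiv.sum_comp e1.symm]
  simp only [Equiv.apply_symm_apply]
  rw [Finset.sum_boole]
  congr 1
  have h2 : (Finset.univ.filter fun S : Finset (Fin n) => S.card = r)
      = Finset.powersetCard r Finset.univ := by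
    ext S
    simp [Finset.mem_powersetCard]
  rw [h2, Finset.card_powersetCard, Finset.card_univ, Fintype.card_fin]

lemma cr_single {ι : Type v} [Fintype ι] [DecidableEq ι] (e2 : ι ≃ Finset (Fin n)) (k : Fin n)
    (S : Finset (Fin n)) (hk : k ∈ S) :
    Matrix.toEuclideanCLM (𝕜 := ℂ) (cr e2 k)
        (EuclideanSpace.single (e2.symm (S.erase k)) (1:ℂ))
      = sgn k S • EuclideanSpace.single (e2.symm S) (1:ℂ) := by
  ext i
  rw [Matrix.ofLp_toEuclideanCLM, cr_mulVec]
  by_cases hi : i = e2.symm S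
  · subst hi
    simp [hk]
  · have hne : e2 i ≠ S := fun h => hi (by rw [← h]; simp)
    by_cases hki : k ∈ e2 i
    · have : (e2 i).erase k ≠ S.erase k := by
        intro h
        apply hne
        rw [← Finset.insert_erase hki, h, Finset.insert_erase hk]
      simp [hi, hki, this]
    · simp [hi, hki]

lemma sum_cr_smul {V : Type*} [AddCommGroup V] [Module ℂ V] (e1 : Fin m ≃ Finset (Fin n))
    (k : Fin n) (i : Fin m) (g : Fin m → V) :
    ∑ j, cr e1 k i j • g j
      = if k ∈ e1 i then sgn k (e1 i) • g (e1.symm ((e1 i).erase k)) else 0 := by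
  by_cases hk : k ∈ e1 i
  · rw [Finset.sum_eq_single (e1.symm ((e1 i).erase k))]
    · simp [cr, hk]
    · intro j _ hj
      have : e1 j ≠ (e1 i).erase k := fun h => hj (by rw [← h]; simp)
      simp [cr, this]
    · simp
  · simp [cr, hk]

lemma blockOp_testV {ι : Type v} [Fintype ι] [DecidableEq ι] (e1 : Fin m ≃ Finset (Fin n))
    (e2 : ι ≃ Finset (Fin n)) (r : ℕ) :
    blockOp ((crX e1).map (crU e2)) (testV e1 e2 r) = ((r : ℂ) + 1) • testV e1 e2 (r + 1) := by
  apply PiLp.ext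
  intro i
  rw [blockOp_apply]
  have h1 : ∀ j, ((crX e1).map (crU e2)) i j ((testV e1 e2 r) j)
      = ∑ k, cr e1 k i j • (Matrix.toEuclideanCLM (𝕜 := ℂ) (cr e2 k)) ((testV e1 e2 r) j) := by
    intro j
    rw [Matrix.map_apply, crU_apply, map_sum, sum_apply]
    refine Finset.sum_congr rfl fun k _ => ?_
    rw [map_smul, smul_apply]
    rfl
  simp only [h1]
  rw [Finset.sum_comm]
  have h2 : ∀ k, ∑ j, cr e1 k i j • (Matrix.toEuclideanCLM (𝕜 := ℂ) (cr e2 k))
      ((testV e1 e2 r) j) = if k ∈ e1 i then (testV e1 e2 (r + 1)) i else 0 := by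
    intro k
    rw [sum_cr_smul]
    by_cases hk : k ∈ e1 i
    · rw [if_pos hk, if_pos hk]
      have hc : ((e1 i).erase k).card + 1 = (e1 i).card := Finset.card_erase_add_one hk
      by_cases hcard : (e1 i).card = r + 1
      · have hcard' : ((e1 i).erase k).card = r := by omega
        have e3 : (testV e1 e2 r) (e1.symm ((e1 i).erase k))
            = EuclideanSpace.single (e2.symm ((e1 i).erase k)) (1:ℂ) := by
          simp [testV, hcard']
        have e4 : (testV e1 e2 (r + 1)) i = EuclideanSpace.single (e2.symm (e1 i)) (1:ℂ) := by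
          simp [testV, hcard]
        rw [e3, e4, cr_single e2 k (e1 i) hk, smul_smul, sgn_mul_self, one_smul]
      · have hcard' : ((e1 i).erase k).card ≠ r := by omega
        have e3 : (testV e1 e2 r) (e1.symm ((e1 i).erase k)) = 0 := by
          simp [testV, hcard']
        have e4 : (testV e1 e2 (r + 1)) i = 0 := by
          simp [testV, hcard]
        rw [e3, e4, map_zero, smul_zero]
    · rw [if_neg hk, if_neg hk]
  simp only [h2]
  rw [← Finset.sum_filter, Finset.sum_const, Finset.filter_mem_eq_inter, Finset.univ_inter]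
  by_cases hcard : (e1 i).card = r + 1
  · rw [hcard, PiLp.smul_apply, ← Nat.cast_smul_eq_nsmul ℂ]
    push_cast
    rfl
  · have e4 : (testV e1 e2 (r + 1)) i = 0 := by
      simp [testV, hcard]
    rw [PiLp.smul_apply, e4, smul_zero, smul_zero]

lemma le_alpha_l2 (n r : ℕ) :
    ENNReal.ofReal (Real.sqrt ((r + 1) * ((n : ℝ) - r)))
      ≤ alpha.{v} (EuclideanSpace ℂ (Fin n)) := by
  by_cases hr : n ≤ r
  · have : ((r : ℝ) + 1) * ((n : ℝ) - r) ≤ 0 := by
      have : (n : ℝ) ≤ r := by exact_mod_cast hr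
      apply mul_nonpos_of_nonneg_of_nonpos
      · positivity
      · linarith
    rw [Real.sqrt_eq_zero_of_nonpos this]
    simp
  push Not at hr
  obtain ⟨e1⟩ : Nonempty (Fin (Fintype.card (Finset (Fin n))) ≃ Finset (Fin n)) :=
    ⟨(Fintype.equivFin _).symm⟩
  have e2 : ULift.{v} (Finset (Fin n)) ≃ Finset (Fin n) := Equiv.ulift
  refine le_trans ?_ (le_iSup₂_of_le _ (crX e1) (le_iSup (fun _ => maxNorm.{v} (crX e1))
    (minNorm_crX e1)))
  refine le_trans ?_ (le_iSup_of_le (EuclideanSpace ℂ (ULift.{v} (Finset (Fin n))))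
    (le_iSup_of_le inferInstance (le_iSup_of_le inferInstance (le_iSup_of_le inferInstance
      (le_iSup₂_of_le (crU e2) (norm_crU_le e2) le_rfl)))))
  apply ENNReal.ofReal_le_ofReal
  have h1 := (blockOp ((crX e1).map (crU e2))).le_opNorm (testV e1 e2 r)
  rw [blockOp_testV, norm_smul] at h1
  have h2 : ‖((r : ℂ) + 1)‖ = (r : ℝ) + 1 := by
    have : ((r : ℂ) + 1) = (((r : ℝ) + 1 : ℝ) : ℂ) := by push_cast; rfl
    rw [this, Complex.norm_real, Real.norm_eq_abs, abs_of_nonneg (by positivity)]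
  rw [h2] at h1
  have h3 := norm_testV e1 e2 r
  have h4 := norm_testV e1 e2 (r + 1)
  obtain ⟨a, ha⟩ : ∃ a, a = ‖testV e1 e2 r‖ := ⟨_, rfl⟩
  obtain ⟨b, hb⟩ : ∃ b, b = ‖testV e1 e2 (r + 1)‖ := ⟨_, rfl⟩
  obtain ⟨t, ht⟩ : ∃ t, t = ‖blockOp ((crX e1).map (crU e2))‖ := ⟨_, rfl⟩
  have ha0 : 0 ≤ a := ha ▸ norm_nonneg _
  have hb0 : 0 ≤ b := hb ▸ norm_nonneg _
  have ht0 : 0 ≤ t := ht ▸ norm_nonneg _
  rw [← ha, ← hb, ← ht] at h1
  rw [← ha] at h3
  rw [← hb] at h4
  rw [← ht]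
  have h5 : ((n.choose (r + 1) : ℝ)) * ((r : ℝ) + 1) = (n.choose r : ℝ) * ((n : ℝ) - r) := by
    have := Nat.choose_succ_right_eq n r
    have h6 : ((n.choose (r + 1) * (r + 1) : ℕ) : ℝ) = ((n.choose r * (n - r) : ℕ) : ℝ) := by
      rw [this]
    push_cast at h6
    rw [Nat.cast_sub hr.le] at h6
    exact h6
  have hapos : (0:ℝ) < n.choose r := by
    exact_mod_cast Nat.choose_pos hr.le
  apply Real.sqrt_le_iff.mpr
  refine ⟨ht0, ?_⟩
  have h7 : (((r : ℝ) + 1) * b) ^ 2 ≤ (t * a) ^ 2 := by gcongr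
  rw [mul_pow, mul_pow, h3, h4] at h7
  have h8 : ((r : ℝ) + 1) ^ 2 * (n.choose (r + 1) : ℝ)
      = (n.choose r : ℝ) * (((r : ℝ) + 1) * ((n : ℝ) - r)) := by
    calc ((r : ℝ) + 1) ^ 2 * (n.choose (r + 1) : ℝ)
        = ((r : ℝ) + 1) * ((n.choose (r + 1) : ℝ) * ((r : ℝ) + 1)) := by ring
      _ = (n.choose r : ℝ) * (((r : ℝ) + 1) * ((n : ℝ) - r)) := by rw [h5]; ring
  rw [h8, mul_comm (t ^ 2)] at h7
  exact le_of_mul_le_mul_left h7 hapos

end Pool.Agent.H39Alpha
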