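import Pool.Agent.H39Alpha.FamilyLInf
import Pool.Agent.H39Alpha.CertData

/-! Three contractions violating the expected inequality. -/

namespace Pool.Agent.H39Alpha

open scoped ENNReal InnerProductSpace ComplexConjugate Matrix
open Cert

universe v

/-- shift of a sequence -/
def shf (φ : ℕ → ℂ) : ℕ → ℂ
  | 0 => 0
  | k + 1 => φ k

/-- the potential -/
noncomputable def pot (φ : ℕ → ℂ) (c : ℂ) : ℕ → ℝ
  | 0 => 0
  | k + 1 => (1 + (599 / 100 - 3 - 2 * (c * qc ^ k).re - xf (c * qc ^ k))) * ‖φ k‖ ^ 2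

lemma yf_nonneg (z : ℂ) (hz : ‖z‖ = 1) : 0 ≤ 599 / 100 - 3 - 2 * z.re - xf z := by
  have h1 := xf_main z hz
  have hqz : ‖qc * z‖ = 1 := by rw [norm_mul, norm_qc, hz, one_mul]
  have h2 := xf_pos _ hqz
  have h3 : -1 ≤ (qc * z).re := by
    have h4 := Complex.abs_re_le_norm (qc * z)
    rw [hqz] at h4
    have := neg_abs_le (qc * z).re
    linarith
  by_contra hcon
  push Not at hcon
  have : xf (qc * z) * (599 / 100 - 3 - 2 * z.re - xf z) < 0 := mul_neg_of_pos_of_neg h2 hcon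
  linarith

lemma pot_nonneg (φ : ℕ → ℂ) (c : ℂ) (hc : ‖c‖ = 1) (k : ℕ) : 0 ≤ pot φ c k := by
  cases k with
  | zero => simp [pot]
  | succ k =>
    have hz : ‖c * qc ^ k‖ = 1 := by rw [norm_mul, norm_pow, norm_qc, hc]; simp
    have := yf_nonneg _ hz
    rw [pot]
    positivity

lemma step_bound (φ : ℕ → ℂ) (e1 e2 e3 : ℂ) (h1 : ‖e1‖ = 1) (h2 : ‖e2‖ = 1) (h3 : ‖e3‖ = 1)
    (k : ℕ) :
    ‖(e1 + e2 * qc ^ k) * φ k + e3 * qc ^ k * shf φ k‖ ^ 2 + pot φ (conj e1 * e2) (k + 1)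
      ≤ 599 / 100 * ‖φ k‖ ^ 2 + pot φ (conj e1 * e2) k := by
  obtain ⟨c, hc⟩ : ∃ c, c = conj e1 * e2 := ⟨_, rfl⟩
  have hcn : ‖c‖ = 1 := by rw [hc, norm_mul, RCLike.norm_conj, h1, h2, one_mul]
  have hz : ∀ j : ℕ, ‖c * qc ^ j‖ = 1 := fun j => by
    rw [norm_mul, norm_pow, norm_qc, hcn]; simp
  rw [← hc]
  have ha : ‖e1 + e2 * qc ^ k‖ ^ 2 = 2 + 2 * (c * qc ^ k).re := by
    have e11 : e1 * conj e1 = 1 := by
      rw [Complex.mul_conj, Complex.normSq_eq_norm_sq, h1]; simp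
    have h : e1 + e2 * qc ^ k = e1 * (1 + c * qc ^ k) := by
      rw [hc]
      linear_combination (-(e2 * qc ^ k)) * e11
    rw [h, norm_mul, h1, one_mul, ← Complex.normSq_eq_norm_sq, Complex.normSq_add,
      Complex.normSq_one, Complex.normSq_eq_norm_sq, hz k, one_mul, Complex.conj_re]
    ring
  have hb : ‖e3 * qc ^ k‖ = 1 := by rw [norm_mul, norm_pow, norm_qc, h3]; simp
  have htri : ‖(e1 + e2 * qc ^ k) * φ k + e3 * qc ^ k * shf φ k‖
      ≤ ‖e1 + e2 * qc ^ k‖ * ‖φ k‖ + ‖shf φ k‖ := by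
    refine (norm_add_le _ _).trans ?_
    rw [norm_mul, norm_mul, hb, one_mul]
  have hxp := xf_pos _ (hz k)
  cases k with
  | zero =>
    have hs : shf φ 0 = 0 := rfl
    rw [hs, norm_zero, add_zero] at htri
    have h5 : ‖(e1 + e2 * qc ^ 0) * φ 0 + e3 * qc ^ 0 * shf φ 0‖ ^ 2
        ≤ (‖e1 + e2 * qc ^ 0‖ * ‖φ 0‖) ^ 2 := by
      gcongr
      exact htri
    rw [mul_pow, ha] at h5
    simp only [pot]
    have h6 : 0 ≤ xf (c * qc ^ 0) * ‖φ 0‖ ^ 2 := by positivity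
    nlinarith [h5, h6]
  | succ k =>
    have hs : shf φ (k + 1) = φ k := rfl
    rw [hs] at htri ⊢
    have h5 : ‖(e1 + e2 * qc ^ (k + 1)) * φ (k + 1) + e3 * qc ^ (k + 1) * φ k‖ ^ 2
        ≤ (‖e1 + e2 * qc ^ (k + 1)‖ * ‖φ (k + 1)‖ + ‖φ k‖) ^ 2 := by
      gcongr
    have hm := xf_main (c * qc ^ k) (hz k)
    have hqk : qc * (c * qc ^ k) = c * qc ^ (k + 1) := by ring
    rw [hqk] at hm
    simp only [pot]
    obtain ⟨x, hx⟩ : ∃ x, x = xf (c * qc ^ (k + 1)) := ⟨_, rfl⟩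
    obtain ⟨y, hy⟩ : ∃ y, y = 599 / 100 - 3 - 2 * (c * qc ^ k).re - xf (c * qc ^ k) := ⟨_, rfl⟩
    obtain ⟨A, hA⟩ : ∃ A, A = ‖e1 + e2 * qc ^ (k + 1)‖ := ⟨_, rfl⟩
    obtain ⟨r, hr⟩ : ∃ r, r = (c * qc ^ (k + 1)).re := ⟨_, rfl⟩
    obtain ⟨a, haa⟩ : ∃ a, a = ‖φ (k + 1)‖ := ⟨_, rfl⟩
    obtain ⟨b, hbb⟩ : ∃ b, b = ‖φ k‖ := ⟨_, rfl⟩
    rw [← hx, ← hy, ← hr] at hm
    rw [← hA, ← hr] at ha
    rw [← hA, ← haa, ← hbb] at h5
    rw [← hx] at hxp
    rw [← hy, ← hr, ← haa, ← hbb, ← hx]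
    -- `2 A a b ≤ x a ^ 2 + y b ^ 2`
    have h7 : 2 * A * a * b ≤ x * a ^ 2 + y * b ^ 2 := by
      have h8 : 0 ≤ (x * a - A * b) ^ 2 := sq_nonneg _
      have h9 : A ^ 2 * b ^ 2 ≤ x * y * b ^ 2 := by
        have : A ^ 2 ≤ x * y := by rw [ha]; exact hm
        gcongr
      have h10 : 0 ≤ x * (x * a ^ 2 + y * b ^ 2 - 2 * A * a * b) := by nlinarith [h8, h9]
      have h11 := nonneg_of_mul_nonneg_right h10 hxp
      linarith
    nlinarith [h5, h7, ha]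

/-- extension by zero of a vector -/
noncomputable def ext0 {N : ℕ} (w : Fin N → ℂ) (k : ℕ) : ℂ := if h : k < N then w ⟨k, h⟩ else 0

lemma sum_ext0 {N : ℕ} (w : Fin N → ℂ) (f : ℂ → ℝ) :
    ∑ k ∈ Finset.range N, f (ext0 w k) = ∑ i, f (w i) := by
  rw [Finset.sum_range]
  refine Finset.sum_congr rfl fun i _ => ?_
  simp [ext0]

/-- the three matrices -/
noncomputable def tri (q : ℂ) (N : ℕ) : Fin 3 → Matrix (Fin N) (Fin N) ℂ :=
  ![1, Matrix.diagonal (fun i => q ^ (i : ℕ)),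
    Matrix.of fun i j => if (i : ℕ) = j + 1 then q ^ (i : ℕ) else 0]

lemma shift_mulVec (q : ℂ) (N : ℕ) (w : Fin N → ℂ) (i : Fin N) :
    ((Matrix.of fun i j => if (i : ℕ) = j + 1 then q ^ (i : ℕ) else 0 : Matrix (Fin N) (Fin N) ℂ)
      *ᵥ w) i = q ^ (i : ℕ) * shf (ext0 w) i := by
  simp only [Matrix.mulVec, dotProduct, Matrix.of_apply]
  obtain ⟨i, hi⟩ := i
  cases i with
  | zero => simp [shf]
  | succ i =>
    rw [Finset.sum_eq_single ⟨i, by omega⟩]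
    · have hi' : i < N := by omega
      simp [shf, ext0, hi']
    · intro j _ hj
      have : ¬ (i + 1 = (j : ℕ) + 1) := by
        intro h
        apply hj
        ext
        simp only
        omega
      rw [if_neg this, zero_mul]
    · simp

lemma tri_mulVec (q : ℂ) (N : ℕ) (y : Fin 3 → ℂ) (w : Fin N → ℂ) (i : Fin N) :
    ((∑ k, y k • tri q N k) *ᵥ w) i
      = (y 0 + y 1 * q ^ (i : ℕ)) * ext0 w i + y 2 * q ^ (i : ℕ) * shf (ext0 w) i := by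
  rw [Fin.sum_univ_three, Matrix.add_mulVec, Matrix.add_mulVec, Pi.add_apply, Pi.add_apply]
  simp only [tri, Matrix.cons_val_zero, Matrix.cons_val_one, Matrix.cons_val_two,
    Matrix.smul_mulVec, Matrix.one_mulVec, Pi.smul_apply, smul_eq_mul, Matrix.mulVec_diagonal]
  have h : ext0 w i = w i := by simp [ext0]
  rw [h]
  have h2 := shift_mulVec q N w i
  simp only [Matrix.head_cons, Matrix.tail_cons]
  rw [h2]
  ring

/-- the bound for unimodular coefficients -/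
lemma norm_tri_le_of_unimodular (N : ℕ) (e : Fin 3 → ℂ) (he : ∀ k, ‖e k‖ = 1) :
    ‖Matrix.toEuclideanCLM (𝕜 := ℂ) (∑ k, e k • tri qc N k)‖ ≤ Real.sqrt (599 / 100) := by
  refine ContinuousLinearMap.opNorm_le_bound _ (Real.sqrt_nonneg _) fun w => ?_
  rw [← sq_le_sq₀ (norm_nonneg _) (by positivity), mul_pow, Real.sq_sqrt (by norm_num),
    EuclideanSpace.norm_sq_eq, EuclideanSpace.norm_sq_eq]
  have h1 : ∀ i : Fin N, ‖(Matrix.toEuclideanCLM (𝕜 := ℂ) (∑ k, e k • tri qc N k) w) i‖ ^ 2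
      = ‖(e 0 + e 1 * qc ^ (i : ℕ)) * ext0 w i + e 2 * qc ^ (i : ℕ) * shf (ext0 w) i‖ ^ 2 := by
    intro i
    rw [Matrix.ofLp_toEuclideanCLM, tri_mulVec]
  simp only [h1]
  rw [← Finset.sum_range (fun k => ‖(e 0 + e 1 * qc ^ k) * ext0 w k
    + e 2 * qc ^ k * shf (ext0 w) k‖ ^ 2), ← sum_ext0 w (fun z => ‖z‖ ^ 2)]
  have key : ∀ M : ℕ, ∑ k ∈ Finset.range M, ‖(e 0 + e 1 * qc ^ k) * ext0 w k
      + e 2 * qc ^ k * shf (ext0 w) k‖ ^ 2 + pot (ext0 w) (conj (e 0) * e 1) M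
      ≤ 599 / 100 * ∑ k ∈ Finset.range M, ‖ext0 w k‖ ^ 2 := by
    intro M
    induction M with
    | zero => simp [pot]
    | succ M ih =>
      rw [Finset.sum_range_succ, Finset.sum_range_succ, mul_add]
      have := step_bound (ext0 w) (e 0) (e 1) (e 2) (he 0) (he 1) (he 2) M
      linarith
  have h2 := key N
  have h3 := pot_nonneg (ext0 w) (conj (e 0) * e 1)
    (by rw [norm_mul, RCLike.norm_conj, he 0, he 1, one_mul]) N
  linarith

/-- every complex number of modulus at most one is the average of two unimodular ones -/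
lemma exists_avg (w : ℂ) (hw : ‖w‖ ≤ 1) :
    ∃ a b : ℂ, ‖a‖ = 1 ∧ ‖b‖ = 1 ∧ w = (1 / 2 : ℝ) • a + (1 / 2 : ℝ) • b := by
  obtain ⟨c, hc1, hc2⟩ : ∃ c : ℂ, ‖c‖ = 1 ∧ w = ‖w‖ * c := by
    by_cases h : w = 0
    · exact ⟨1, by simp, by simp [h]⟩
    · have h' : (‖w‖ : ℂ) ≠ 0 := by simpa using h
      refine ⟨w / ‖w‖, ?_, ?_⟩
      · rw [norm_div]; simp [h]
      · field_simp
  have hs : 0 ≤ 1 - ‖w‖ ^ 2 := by
    have := pow_le_one₀ (n := 2) (norm_nonneg w) hw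
    linarith
  obtain ⟨s, hs1⟩ : ∃ s, s = Real.sqrt (1 - ‖w‖ ^ 2) := ⟨_, rfl⟩
  have hs2 : s ^ 2 = 1 - ‖w‖ ^ 2 := by rw [hs1, Real.sq_sqrt hs]
  have hn : ∀ t : ℝ, t ^ 2 = 1 - ‖w‖ ^ 2 → ‖((‖w‖ : ℂ) + t * Complex.I) * c‖ = 1 := by
    intro t ht
    rw [norm_mul, hc1, mul_one]
    have h1 : ‖((‖w‖ : ℂ) + t * Complex.I)‖ ^ 2 = 1 := by
      rw [← Complex.normSq_eq_norm_sq, Complex.normSq_add_mul_I, ht]; ring
    exact (pow_eq_one_iff_of_nonneg (norm_nonneg _) two_ne_zero).mp h1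
  refine ⟨((‖w‖ : ℂ) + s * Complex.I) * c, ((‖w‖ : ℂ) + ((-s : ℝ) : ℂ) * Complex.I) * c,
    hn s hs2, hn (-s) (by rw [neg_sq, hs2]), ?_⟩
  conv_lhs => rw [hc2]
  simp only [Complex.real_smul]
  push_cast
  ring

/-- affine functions on the disc are bounded by their values on the circle -/
lemma norm_le_of_circle {E : Type*} [NormedAddCommGroup E] [NormedSpace ℂ E] (u x : E) (C : ℝ)
    (h : ∀ a : ℂ, ‖a‖ = 1 → ‖u + a • x‖ ≤ C) (w : ℂ) (hw : ‖w‖ ≤ 1) : ‖u + w • x‖ ≤ C := by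
  obtain ⟨a, b, ha, hb, hab⟩ := exists_avg w hw
  have h1 : u + w • x = (1 / 2 : ℝ) • (u + a • x) + (1 / 2 : ℝ) • (u + b • x) := by
    rw [hab]
    simp only [← Complex.coe_smul, smul_add, smul_smul, smul_eq_mul, add_smul]
    push_cast
    have : (1 / 2 : ℂ) • u + (1 / 2 : ℂ) • u = u := by
      rw [← add_smul]; norm_num
    calc u + (((1 / 2 : ℂ) * a) • x + ((1 / 2 : ℂ) * b) • x)
        = ((1 / 2 : ℂ) • u + (1 / 2 : ℂ) • u)
          + (((1 / 2 : ℂ) * a) • x + ((1 / 2 : ℂ) * b) • x) := by rw [this]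
      _ = _ := by abel
  rw [h1]
  refine (norm_add_le _ _).trans ?_
  rw [norm_smul, norm_smul]
  have h2 := h a ha
  have h3 := h b hb
  have h4 : ‖(1 / 2 : ℝ)‖ = 1 / 2 := by norm_num
  rw [h4]
  linarith

/-- the bound for coefficients of modulus at most one -/
lemma norm_tri_le_of_le_one (N : ℕ) (y : Fin 3 → ℂ) (hy : ∀ k, ‖y k‖ ≤ 1) :
    ‖Matrix.toEuclideanCLM (𝕜 := ℂ) (∑ k, y k • tri qc N k)‖ ≤ Real.sqrt (599 / 100) := by
  obtain ⟨T, hT⟩ : ∃ T : Fin 3 → (EuclideanSpace ℂ (Fin N) →L[ℂ] EuclideanSpace ℂ (Fin N)),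
      T = fun k => Matrix.toEuclideanCLM (𝕜 := ℂ) (tri qc N k) := ⟨_, rfl⟩
  have hsum : ∀ z : Fin 3 → ℂ, Matrix.toEuclideanCLM (𝕜 := ℂ) (∑ k, z k • tri qc N k)
      = z 0 • T 0 + z 1 • T 1 + z 2 • T 2 := by
    intro z
    rw [Fin.sum_univ_three, map_add, map_add, map_smul, map_smul, map_smul, hT]
  have h0 : ∀ a b c : ℂ, ‖a‖ = 1 → ‖b‖ = 1 → ‖c‖ = 1 →
      ‖a • T 0 + b • T 1 + c • T 2‖ ≤ Real.sqrt (599 / 100) := by
    intro a b c ha hb hc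
    have h := norm_tri_le_of_unimodular N ![a, b, c] (by
      intro k; fin_cases k <;> simp [ha, hb, hc])
    rw [hsum] at h
    exact h
  have h1 : ∀ a b c : ℂ, ‖a‖ = 1 → ‖b‖ = 1 → ‖c‖ ≤ 1 →
      ‖a • T 0 + b • T 1 + c • T 2‖ ≤ Real.sqrt (599 / 100) := by
    intro a b c ha hb hc
    exact norm_le_of_circle _ _ _ (fun c' hc' => h0 a b c' ha hb hc') c hc
  have h2 : ∀ a b c : ℂ, ‖a‖ = 1 → ‖b‖ ≤ 1 → ‖c‖ ≤ 1 →
      ‖a • T 0 + b • T 1 + c • T 2‖ ≤ Real.sqrt (599 / 100) := by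
    intro a b c ha hb hc
    have h := norm_le_of_circle (a • T 0 + c • T 2) (T 1) (Real.sqrt (599 / 100))
      (fun b' hb' => by
        have := h1 a b' c ha hb' hc
        rwa [add_right_comm] at this) b hb
    rwa [add_right_comm] at h
  have h3 := norm_le_of_circle (y 1 • T 1 + y 2 • T 2) (T 0) (Real.sqrt (599 / 100))
      (fun a' ha' => by
        have := h2 a' (y 1) (y 2) ha' (hy 1) (hy 2)
        rwa [add_assoc, add_comm] at this) (y 0) (hy 0)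
  rw [hsum, add_assoc, add_comm]
  exact h3

lemma norm_tri_le (N : ℕ) (y : Fin 3 → ℂ) :
    ‖Matrix.toEuclideanCLM (𝕜 := ℂ) (∑ k, y k • tri qc N k)‖
      ≤ Real.sqrt (599 / 100) * ‖y‖ := by
  by_cases h0 : y = 0
  · simp [h0]
  have hy : 0 < ‖y‖ := norm_pos_iff.mpr h0
  have h1 := norm_tri_le_of_le_one N (((‖y‖⁻¹ : ℝ) : ℂ) • y) (by
    intro k
    rw [Pi.smul_apply, norm_smul, Complex.norm_real, norm_inv, norm_norm]
    rw [inv_mul_le_iff₀ hy, mul_one]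
    exact norm_le_pi_norm y k)
  have h2 : ∑ k, (((‖y‖⁻¹ : ℝ) : ℂ) • y) k • tri qc N k
      = ((‖y‖⁻¹ : ℝ) : ℂ) • ∑ k, y k • tri qc N k := by
    rw [Finset.smul_sum]
    refine Finset.sum_congr rfl fun k _ => ?_
    rw [Pi.smul_apply, smul_assoc]
  rw [h2, map_smul, norm_smul, Complex.norm_real, norm_inv, norm_norm,
    inv_mul_le_iff₀ hy] at h1
  linarith

lemma norm_tri_single_le (q : ℂ) (hq : ‖q‖ = 1) (N : ℕ) (k : Fin 3) :
    ‖Matrix.toEuclideanCLM (𝕜 := ℂ) (tri q N k)‖ ≤ 1 := by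
  refine ContinuousLinearMap.opNorm_le_bound _ zero_le_one fun w => ?_
  rw [one_mul, ← sq_le_sq₀ (norm_nonneg _) (norm_nonneg _), EuclideanSpace.norm_sq_eq,
    EuclideanSpace.norm_sq_eq]
  have h1 : ∀ i : Fin N, ‖(Matrix.toEuclideanCLM (𝕜 := ℂ) (tri q N k) w) i‖ ^ 2
      = ‖((Pi.single k (1:ℂ) : Fin 3 → ℂ) 0 + (Pi.single k (1:ℂ) : Fin 3 → ℂ) 1 * q ^ (i : ℕ))
          * ext0 w i
        + (Pi.single k (1:ℂ) : Fin 3 → ℂ) 2 * q ^ (i : ℕ) * shf (ext0 w) i‖ ^ 2 := by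
    intro i
    rw [Matrix.ofLp_toEuclideanCLM, ← tri_mulVec]
    congr 3
    rw [Finset.sum_eq_single k]
    · simp
    · intro j _ hj
      simp [hj]
    · simp
  simp only [h1]
  have hqi : ∀ i : ℕ, ‖q ^ i‖ = 1 := fun i => by rw [norm_pow, hq, one_pow]
  have hw : ∑ i : Fin N, ‖ext0 w i‖ ^ 2 = ∑ i : Fin N, ‖w i‖ ^ 2 := by
    refine Finset.sum_congr rfl fun i _ => ?_
    simp [ext0]
  have hw2 : ∑ i : Fin N, ‖shf (ext0 w) i‖ ^ 2 ≤ ∑ i : Fin N, ‖w i‖ ^ 2 := by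
    rw [← hw, ← Finset.sum_range (fun i => ‖shf (ext0 w) i‖ ^ 2),
      ← Finset.sum_range (fun i => ‖ext0 w i‖ ^ 2)]
    cases N with
    | zero => simp
    | succ N =>
      rw [Finset.sum_range_succ', Finset.sum_range_succ]
      simp [shf]
  fin_cases k
  · simp [hw]
  · simp [hqi, hw]
  · simpa [hqi] using hw2

lemma tri_map_conj (q : ℂ) (N : ℕ) (k : Fin 3) : (tri q N k).map conj = tri (conj q) N k := by
  fin_cases k
  · ext i j
    by_cases h : i = j <;> simp [tri, h]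
  · ext i j
    by_cases h : i = j <;> simp [tri, h]
  · ext i j
    by_cases h : (i : ℕ) = j + 1 <;> simp [tri, h]

lemma sum_tri_sq (q : ℂ) (hq : ‖q‖ = 1) (N : ℕ) :
    ∑ i, ∑ j, ∑ k, ‖tri q (N + 1) k i j‖ ^ 2 = 3 * (N + 1) - 1 := by
  have hqi : ∀ i : ℕ, ‖q ^ i‖ = 1 := fun i => by rw [norm_pow, hq, one_pow]
  have h1 : ∀ i j : Fin (N + 1), ∑ k, ‖tri q (N + 1) k i j‖ ^ 2
      = (if i = j then 2 else 0) + (if (i : ℕ) = j + 1 then (1:ℝ) else 0) := by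
    intro i j
    rw [Fin.sum_univ_three]
    by_cases h : i = j
    · subst h
      simp [tri, hqi]
      norm_num
    · by_cases h2 : (i : ℕ) = j + 1
      · have : tri q (N + 1) 2 i j = q ^ (i : ℕ) := by simp [tri, h2]
        rw [this, hqi]
        simp [tri, h, h2]
      · simp [tri, h, h2]
  simp only [h1, Finset.sum_add_distrib, Finset.sum_ite_eq, Finset.mem_univ, if_true]
  have h2 : ∀ i : Fin (N + 1), ∑ j : Fin (N + 1), (if (i : ℕ) = j + 1 then (1:ℝ) else 0)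
      = if (i : ℕ) = 0 then 0 else 1 := by
    intro i
    obtain ⟨i, hi⟩ := i
    cases i with
    | zero => simp
    | succ i =>
      rw [Finset.sum_eq_single ⟨i, by omega⟩]
      · simp
      · intro j _ hj
        have : ¬ (i + 1 = (j : ℕ) + 1) := by
          intro h
          apply hj
          ext
          simp only
          omega
        rw [if_neg this]
      · simp
  simp only [h2]
  rw [Fin.sum_univ_succ (n := N) (f := fun i : Fin (N + 1) => if (i : ℕ) = 0 then (0:ℝ) else 1)]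
  simp
  ring

/-- `α(ℓ_∞³) ≥ 3 / √5.99`. -/
theorem le_alpha_linf_three :
    ENNReal.ofReal (3 / Real.sqrt (599 / 100)) ≤ alpha.{v} (Fin 3 → ℂ) := by
  have hpos : 0 < Real.sqrt (599 / 100) := Real.sqrt_pos.mpr (by norm_num)
  have h : ∀ N : ℕ, ENNReal.ofReal ((3 - 1 / ((N : ℝ) + 1)) / Real.sqrt (599 / 100))
      ≤ alpha.{v} (Fin 3 → ℂ) := by
    intro N
    have h1 := le_alpha_of_family.{v} (n := 3) (m := N + 1) (by omega) (tri qc (N + 1))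
      (fun k => by
        rw [tri_map_conj]
        exact norm_tri_single_le _ (by rw [RCLike.norm_conj, norm_qc]) _ _)
      (Real.sqrt (599 / 100)) hpos (norm_tri_le (N + 1))
    rw [sum_tri_sq qc norm_qc N] at h1
    have hN : (0 : ℝ) < (N : ℝ) + 1 := by positivity
    have h2 : (3 * ((N : ℝ) + 1) - 1) / (((N + 1 : ℕ) : ℝ) * Real.sqrt (599 / 100))
        = (3 - 1 / ((N : ℝ) + 1)) / Real.sqrt (599 / 100) := by
      push_cast
      field_simp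
    rwa [h2] at h1
  refine le_of_tendsto' (f := fun N : ℕ =>
    ENNReal.ofReal ((3 - 1 / ((N : ℝ) + 1)) / Real.sqrt (599 / 100))) (x := Filter.atTop) ?_ h
  refine (ENNReal.continuous_ofReal.tendsto _).comp ?_
  have h3 : Filter.Tendsto (fun N : ℕ => 3 - 1 / ((N : ℝ) + 1)) Filter.atTop (nhds (3 - 0)) :=
    tendsto_const_nhds.sub tendsto_one_div_add_atTop_nhds_zero_nat
  rw [sub_zero] at h3
  exact h3.div_const _

end Pool.Agent.H39Alpha
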