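import Pool.Agent.H39Alpha.Design
import Pool.Agent.H39Alpha.Basic

/-! The upper bound for commuting contractive families indexed by the Hilbert space `ℂⁿ`. -/

namespace Pool.Agent.H39Alpha

open scoped InnerProductSpace ComplexConjugate

variable {n : ℕ} {W : Type*} [NormedAddCommGroup W] [InnerProductSpace ℂ W]

/-- `x ↦ ∑ x k • C k` is a contraction from the Hilbert space `ℂⁿ` into `B(W)`. -/
def Contr2 (C : Fin n → (W →L[ℂ] W)) : Prop :=
  ∀ x : Fin n → ℂ, ‖∑ k, x k • C k‖ ^ 2 ≤ ∑ k, ‖x k‖ ^ 2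

variable [CompleteSpace W]

lemma contr2_ineq (C : Fin n → (W →L[ℂ] W)) (hC : Contr2 C) (v : Fin n → W) :
    ‖∑ i, (star (C i)) (v i)‖ ^ 2 + ∑ i, ∑ k, ‖(star (C k)) (v i)‖ ^ 2
      ≤ (n + 1) * ∑ i, ‖v i‖ ^ 2 := by
  apply avg_ineq (w := fun i k => (star (C k)) (v i))
  intro x
  have h1 : ∑ i, ∑ k, (x i * conj (x k)) • (star (C k)) (v i)
      = (star (∑ k, x k • C k)) (∑ i, x i • v i) := by
    rw [map_sum]
    refine Finset.sum_congr rfl fun i _ => ?_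
    rw [map_smul, star_sum, sum_apply, Finset.smul_sum]
    refine Finset.sum_congr rfl fun k _ => ?_
    rw [star_smul, smul_apply, smul_smul]
    rfl
  rw [h1]
  calc ‖(star (∑ k, x k • C k)) (∑ i, x i • v i)‖ ^ 2
      ≤ (‖star (∑ k, x k • C k)‖ * ‖∑ i, x i • v i‖) ^ 2 := by
        gcongr
        exact ContinuousLinearMap.le_opNorm _ _
    _ = ‖∑ k, x k • C k‖ ^ 2 * ‖∑ i, x i • v i‖ ^ 2 := by
        rw [norm_star, mul_pow]
    _ ≤ (∑ i, ‖x i‖ ^ 2) * ‖∑ i, x i • v i‖ ^ 2 := by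
        gcongr
        exact hC x

lemma final_arith {N τ p q S R : ℝ} (hN : 0 < N) (hτ : 0 < τ) (hq : 0 ≤ q)
    (h1 : τ ^ 2 + S ≤ N * q) (h2 : p ^ 2 + R ≤ N * p) (h3 : 0 ≤ S - 2 * τ * q + R) :
    τ ≤ N / 2 := by
  by_contra hcon
  push Not at hcon
  have e : (τ - N / 2) * (τ + N / 2 + 2 * q) = τ ^ 2 + 2 * τ * q - N ^ 2 / 4 - N * q := by ring
  have h6 : 0 < (τ - N / 2) * (τ + N / 2 + 2 * q) := by
    apply mul_pos
    · linarith
    · positivity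
  have h7 : R ≤ N ^ 2 / 4 := by nlinarith [sq_nonneg (p - N / 2)]
  rw [e] at h6
  linarith

theorem abstract_bound (A B : Fin n → (W →L[ℂ] W)) (hA : Contr2 A) (hB : Contr2 B)
    (hc : ∀ i k, A i * B k = B k * A i) (hc' : ∀ i k, star (A i) * B k = B k * star (A i)) :
    ‖∑ i, A i * B i‖ ≤ ((n : ℝ) + 1) / 2 := by
  obtain ⟨T, hT⟩ : ∃ T, T = ∑ i, A i * B i := ⟨_, rfl⟩
  rw [← hT]
  refine ContinuousLinearMap.opNorm_le_of_unit_norm (by positivity) fun ξ hξ => ?_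
  obtain ⟨τ, hτ⟩ : ∃ τ, τ = ‖T ξ‖ := ⟨_, rfl⟩
  rw [← hτ]
  by_cases hτ0 : τ = 0
  · rw [hτ0]; positivity
  have hτpos : 0 < τ := lt_of_le_of_ne (hτ ▸ norm_nonneg _) (Ne.symm hτ0)
  obtain ⟨η, hTξ, hηn⟩ : ∃ η : W, T ξ = ((τ : ℝ) : ℂ) • η ∧ ‖η‖ = 1 := by
    refine ⟨((τ⁻¹ : ℝ) : ℂ) • T ξ, ?_, ?_⟩
    · rw [smul_smul, ← Complex.ofReal_mul, mul_inv_cancel₀ hτ0, Complex.ofReal_one, one_smul]
    · rw [norm_smul, ← hτ]
      simp [abs_of_pos hτpos, hτ0]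
  obtain ⟨p, hp⟩ : ∃ p : ℝ, p = ∑ i, ‖A i ξ‖ ^ 2 := ⟨_, rfl⟩
  obtain ⟨q, hq⟩ : ∃ q : ℝ, q = ∑ i, ‖(star (A i)) η‖ ^ 2 := ⟨_, rfl⟩
  obtain ⟨S, hS⟩ : ∃ S : ℝ, S = ∑ i, ∑ k, ‖(star (B k)) ((star (A i)) η)‖ ^ 2 := ⟨_, rfl⟩
  obtain ⟨R, hR⟩ : ∃ R : ℝ, R = ∑ i, ∑ k, ‖(star (A k)) (A i ξ)‖ ^ 2 := ⟨_, rfl⟩
  have hq0 : 0 ≤ q := hq ▸ Finset.sum_nonneg fun i _ => by positivity
  have hp0 : 0 ≤ p := hp ▸ Finset.sum_nonneg fun i _ => by positivity
  have I := contr2_ineq B hB (fun i => (star (A i)) η)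
  have II := contr2_ineq A hA (fun i => A i ξ)
  have hTstar : ∑ i, (star (B i)) ((star (A i)) η) = (star T) η := by
    rw [hT, star_sum, sum_apply]
    refine Finset.sum_congr rfl fun i _ => ?_
    rw [star_mul, mul_apply_eq_comp]
  have h1 : τ ≤ ‖(star T) η‖ := by
    have e1 : ⟪(star T) η, ξ⟫_ℂ = ((τ : ℝ) : ℂ) := by
      rw [ContinuousLinearMap.star_eq_adjoint, ContinuousLinearMap.adjoint_inner_left, hTξ,
        inner_smul_right, inner_self_eq_norm_sq_to_K, hηn]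
      simp
    have e2 := norm_inner_le_norm (𝕜 := ℂ) ((star T) η) ξ
    rw [e1, hξ, mul_one] at e2
    simpa [abs_of_pos hτpos] using e2
  have h2 : p ≤ ‖∑ i, (star (A i)) (A i ξ)‖ := by
    have e1 : ⟪∑ i, (star (A i)) (A i ξ), ξ⟫_ℂ = ((p : ℝ) : ℂ) := by
      rw [sum_inner, hp]
      push_cast
      refine Finset.sum_congr rfl fun i _ => ?_
      rw [ContinuousLinearMap.star_eq_adjoint, ContinuousLinearMap.adjoint_inner_left,
        inner_self_eq_norm_sq_to_K]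
      rfl
    have e2 := norm_inner_le_norm (𝕜 := ℂ) (∑ i, (star (A i)) (A i ξ)) ξ
    rw [e1, hξ, mul_one] at e2
    simpa [abs_of_nonneg hp0] using e2
  have I' : τ ^ 2 + S ≤ (n + 1) * q := by
    have : τ ^ 2 ≤ ‖∑ i, (star (B i)) ((star (A i)) η)‖ ^ 2 := by
      rw [hTstar]
      gcongr
    rw [hS, hq]
    linarith [I]
  have II' : p ^ 2 + R ≤ (n + 1) * p := by
    have : p ^ 2 ≤ ‖∑ i, (star (A i)) (A i ξ)‖ ^ 2 := by gcongr
    rw [← hR, ← hp] at II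
    linarith [II]
  -- the third relation
  have III : 0 ≤ S - 2 * τ * q + R := by
    have e2 : ∀ i k, ⟪(star (B k)) ((star (A i)) η), (star (A i)) (A k ξ)⟫_ℂ
        = ⟪(star (A i)) η, (star (A i)) (A k (B k ξ))⟫_ℂ := by
      intro i k
      have e5 : B k ((star (A i)) (A k ξ)) = (star (A i)) (A k (B k ξ)) := by
        have e6 : B k * (star (A i) * A k) = star (A i) * (A k * B k) := by
          rw [← mul_assoc, ← hc', mul_assoc, ← hc]
        exact congrArg (fun F : W →L[ℂ] W => F ξ) e6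
      rw [ContinuousLinearMap.star_eq_adjoint (B k), ContinuousLinearMap.adjoint_inner_left, e5]
    have e3 : ∑ k, A k (B k ξ) = T ξ := by
      rw [hT, sum_apply]
      rfl
    have e1 : ∀ i, ∑ k, ⟪(star (B k)) ((star (A i)) η), (star (A i)) (A k ξ)⟫_ℂ
        = ((τ * ‖(star (A i)) η‖ ^ 2 : ℝ) : ℂ) := by
      intro i
      simp only [e2]
      rw [← inner_sum, ← map_sum, e3, hTξ, map_smul, inner_smul_right,
        inner_self_eq_norm_sq_to_K]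
      push_cast
      rfl
    have hcross : ∑ i, ∑ k, ⟪(star (B k)) ((star (A i)) η), (star (A i)) (A k ξ)⟫_ℂ
        = ((τ * q : ℝ) : ℂ) := by
      simp only [e1]
      rw [hq, Finset.mul_sum]
      push_cast
      rfl
    have hnn : 0 ≤ ∑ i, ∑ k, ‖(star (B k)) ((star (A i)) η) - (star (A i)) (A k ξ)‖ ^ 2 :=
      Finset.sum_nonneg fun i _ => Finset.sum_nonneg fun k _ => by positivity
    have e7 : ∀ i k, ‖(star (B k)) ((star (A i)) η) - (star (A i)) (A k ξ)‖ ^ 2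
        = ‖(star (B k)) ((star (A i)) η)‖ ^ 2
          - 2 * (⟪(star (B k)) ((star (A i)) η), (star (A i)) (A k ξ)⟫_ℂ).re
          + ‖(star (A i)) (A k ξ)‖ ^ 2 := by
      intro i k
      exact norm_sub_sq (𝕜 := ℂ) _ _
    simp only [e7, Finset.sum_add_distrib, Finset.sum_sub_distrib] at hnn
    have e8 : ∑ i, ∑ k, 2 * (⟪(star (B k)) ((star (A i)) η), (star (A i)) (A k ξ)⟫_ℂ).re
        = 2 * τ * q := by
      simp only [← Finset.mul_sum, ← Complex.re_sum]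
      rw [hcross, Complex.ofReal_re]
      ring
    have e9 : ∑ i, ∑ k, ‖(star (A i)) (A k ξ)‖ ^ 2 = R := by
      rw [hR]; exact Finset.sum_comm
    rw [e8, e9, ← hS] at hnn
    exact hnn
  exact final_arith (by positivity) hτpos hq0 I' II' III

end Pool.Agent.H39Alpha
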