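import Pool.Agent.H39Alpha.Design
import Pool.Agent.H39Alpha.Connect

/-! The upper bound for `α(ℓ_∞ⁿ)`. -/

namespace Pool.Agent.H39Alpha

open scoped ENNReal InnerProductSpace ComplexConjugate

universe v

variable {n : ℕ} {W : Type*} [NormedAddCommGroup W] [InnerProductSpace ℂ W]

/-- `x ↦ ∑ x k • C k` is a contraction from `ℓ_∞ⁿ` into `B(W)`. -/
def ContrInf (C : Fin n → (W →L[ℂ] W)) : Prop :=
  ∀ x : Fin n → ℂ, (∀ k, ‖x k‖ ≤ 1) → ‖∑ k, x k • C k‖ ≤ 1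

lemma contrInf_sum_sq (B : Fin n → (W →L[ℂ] W)) (hB : ContrInf B) (y : W) :
    ∑ k, ‖B k y‖ ^ 2 ≤ ‖y‖ ^ 2 := by
  have h := design_identity2 (fun k => B k y)
  have h1 : ∀ s : Fin n → ZMod 3, ‖∑ i, zc (s i) • B i y‖ ^ 2 ≤ ‖y‖ ^ 2 := by
    intro s
    have e : ∑ i, zc (s i) • B i y = (∑ i, zc (s i) • B i) y := by
      simp [sum_apply]
    rw [e]
    have h2 := hB (fun i => zc (s i)) (fun k => (norm_zc _).le)
    have h3 := (∑ i, zc (s i) • B i).le_opNorm y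
    have h4 : ‖(∑ i, zc (s i) • B i) y‖ ≤ ‖y‖ :=
      h3.trans (mul_le_of_le_one_left (norm_nonneg _) h2)
    gcongr
  have h5 : ∑ s : Fin n → ZMod 3, ‖∑ i, zc (s i) • B i y‖ ^ 2 ≤ 3 ^ n * ‖y‖ ^ 2 := by
    refine (Finset.sum_le_sum fun s _ => h1 s).trans (le_of_eq ?_)
    simp
  rw [h] at h5
  exact le_of_mul_le_mul_left h5 (by positivity)

lemma contrInf_avg (B : Fin n → (W →L[ℂ] W)) (hB : ContrInf B) (v : Fin n → W) :
    ‖∑ i, B i (v i)‖ ^ 2 + ∑ i, ∑ k, ‖B k (v i)‖ ^ 2 - ∑ i, ‖B i (v i)‖ ^ 2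
      ≤ ∑ i, ‖v i‖ ^ 2 := by
  have h := design_identity (fun i k => B k (v i))
  have h1 : ∀ s : Fin n → ZMod 3,
      ‖∑ i, ∑ k, (zc (s i) * conj (zc (s k))) • B k (v i)‖ ^ 2
        ≤ ‖∑ i, zc (s i) • v i‖ ^ 2 := by
    intro s
    have e : ∑ i, ∑ k, (zc (s i) * conj (zc (s k))) • B k (v i)
        = (∑ k, conj (zc (s k)) • B k) (∑ i, zc (s i) • v i) := by
      rw [map_sum]
      refine Finset.sum_congr rfl fun i _ => ?_
      rw [map_smul, sum_apply, Finset.smul_sum]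
      refine Finset.sum_congr rfl fun k _ => ?_
      rw [smul_apply, smul_smul]
    rw [e]
    have h2 := hB (fun k => conj (zc (s k))) (fun k => by simp)
    have h3 := (∑ k, conj (zc (s k)) • B k).le_opNorm (∑ i, zc (s i) • v i)
    have h4 := h3.trans (mul_le_of_le_one_left (norm_nonneg _) h2)
    gcongr
  have h5 := Finset.sum_le_sum (s := Finset.univ) fun s _ => h1 s
  rw [h, design_identity2] at h5
  exact le_of_mul_le_mul_left h5 (by positivity)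

lemma norm_sq_add_eq [CompleteSpace W] (A D : W →L[ℂ] W)
    (h : star A * A + star D * D = 1) (y : W) : ‖A y‖ ^ 2 + ‖D y‖ ^ 2 = ‖y‖ ^ 2 := by
  have h1 : ⟪(star A * A + star D * D) y, y⟫_ℂ = ((‖y‖ ^ 2 : ℝ) : ℂ) := by
    rw [h, one_apply_eq_self, inner_self_eq_norm_sq_to_K]
    simp
  have e1 : ∀ F : W →L[ℂ] W, ⟪(star F * F) y, y⟫_ℂ = ((‖F y‖ ^ 2 : ℝ) : ℂ) := by
    intro F
    rw [mul_apply_eq_comp, ContinuousLinearMap.star_eq_adjoint,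
      ContinuousLinearMap.adjoint_inner_left, inner_self_eq_norm_sq_to_K]
    simp
  rw [add_apply, inner_add_left, e1, e1] at h1
  exact_mod_cast h1

theorem abstract_bound_inf [CompleteSpace W] (hn : 1 ≤ n) (A B D : Fin n → (W →L[ℂ] W))
    (hB : ContrInf B)
    (hAD : ∀ i, star (A i) * A i + star (D i) * D i = 1)
    (hc : ∀ i k, A i * B k = B k * A i) (hcD : ∀ i k, D i * B k = B k * D i) :
    ‖∑ i, A i * B i‖ ≤ (n : ℝ) / Real.sqrt (2 * n - 1) := by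
  have hn' : (1 : ℝ) ≤ n := by exact_mod_cast hn
  have hpos : (0 : ℝ) < 2 * n - 1 := by linarith
  obtain ⟨T, hT⟩ : ∃ T, T = ∑ i, A i * B i := ⟨_, rfl⟩
  rw [← hT]
  refine ContinuousLinearMap.opNorm_le_of_unit_norm (by positivity) fun ξ hξ => ?_
  have hcA : ∀ i k y, A i (B k y) = B k (A i y) := fun i k y =>
    congrArg (fun F : W →L[ℂ] W => F y) (hc i k)
  have hcD' : ∀ i k y, D i (B k y) = B k (D i y) := fun i k y =>
    congrArg (fun F : W →L[ℂ] W => F y) (hcD i k)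
  have hTξ : T ξ = ∑ i, B i (A i ξ) := by
    rw [hT, sum_apply]
    exact Finset.sum_congr rfl fun i _ => hcA i i ξ
  have hTξ' : T ξ = ∑ i, A i (B i ξ) := by
    rw [hT, sum_apply]
    rfl
  have hone : ∀ i, ‖A i ξ‖ ^ 2 + ‖D i ξ‖ ^ 2 = 1 := fun i => by
    rw [norm_sq_add_eq (A i) (D i) (hAD i), hξ]; norm_num
  obtain ⟨P, hP⟩ : ∃ P : ℝ, P = ∑ k, ‖B k ξ‖ ^ 2 := ⟨_, rfl⟩
  -- first inequality
  have h1 := contrInf_avg B hB (fun i => A i ξ)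
  rw [← hTξ] at h1
  have h2 : ∀ i, ∑ k, ‖B k (D i ξ)‖ ^ 2 ≤ ‖D i ξ‖ ^ 2 := fun i =>
    contrInf_sum_sq B hB (D i ξ)
  have h3 : ∀ i k, ‖B k ξ‖ ^ 2 = ‖B k (A i ξ)‖ ^ 2 + ‖B k (D i ξ)‖ ^ 2 := fun i k => by
    rw [← hcA, ← hcD', norm_sq_add_eq (A i) (D i) (hAD i)]
  have h4 : (n : ℝ) * P = ∑ i, ∑ k, ‖B k (A i ξ)‖ ^ 2 + ∑ i, ∑ k, ‖B k (D i ξ)‖ ^ 2 := by
    rw [← Finset.sum_add_distrib]
    simp only [← Finset.sum_add_distrib, ← h3]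
    rw [hP]
    simp
  have h5 : P = ∑ i, ‖B i (A i ξ)‖ ^ 2 + ∑ i, ‖B i (D i ξ)‖ ^ 2 := by
    rw [hP, ← Finset.sum_add_distrib]
    exact Finset.sum_congr rfl fun i _ => h3 i i
  have h6 : ∑ i, ∑ k, ‖B k (D i ξ)‖ ^ 2 ≤ ∑ i, ‖D i ξ‖ ^ 2 :=
    Finset.sum_le_sum fun i _ => h2 i
  have h7 : ∑ i, ‖A i ξ‖ ^ 2 + ∑ i, ‖D i ξ‖ ^ 2 = n := by
    rw [← Finset.sum_add_distrib, Finset.sum_congr rfl fun i _ => hone i]
    simp
  have h8 : 0 ≤ ∑ i, ‖B i (D i ξ)‖ ^ 2 := Finset.sum_nonneg fun i _ => by positivity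
  have hmain1 : ‖T ξ‖ ^ 2 + ((n : ℝ) - 1) * P ≤ n := by
    have : ((n : ℝ) - 1) * P = n * P - P := by ring
    rw [this, h4]
    linarith [h1, h5, h6, h7, h8]
  -- second inequality
  have hmain2 : ‖T ξ‖ ^ 2 ≤ n * P := by
    have h9 : ‖T ξ‖ ≤ ∑ k, ‖B k ξ‖ := by
      rw [hTξ']
      refine (norm_sum_le _ _).trans (Finset.sum_le_sum fun k _ => ?_)
      have := norm_sq_add_eq (A k) (D k) (hAD k) (B k ξ)
      have h10 : ‖A k (B k ξ)‖ ^ 2 ≤ ‖B k ξ‖ ^ 2 := by nlinarith [sq_nonneg ‖D k (B k ξ)‖]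
      exact (sq_le_sq₀ (norm_nonneg _) (norm_nonneg _)).mp h10
    calc ‖T ξ‖ ^ 2 ≤ (∑ k, ‖B k ξ‖) ^ 2 := by gcongr
      _ ≤ (Finset.univ : Finset (Fin n)).card * ∑ k, ‖B k ξ‖ ^ 2 := sq_sum_le_card_mul_sum_sq
      _ = n * P := by rw [hP]; simp
  have hfin : ‖T ξ‖ ^ 2 * (2 * n - 1) ≤ (n : ℝ) ^ 2 := by nlinarith
  rw [le_div_iff₀ (Real.sqrt_pos.mpr hpos), ← sq_le_sq₀ (by positivity) (by positivity), mul_pow,
    Real.sq_sqrt hpos.le]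
  exact hfin

end Pool.Agent.H39Alpha
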