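import Pool.Agent.H39Alpha.Connect
import Pool.Agent.H39Alpha.Upper2

/-! `α(ℓ₂ⁿ) ≤ (n+1)/2`. -/

namespace Pool.Agent.H39Alpha

open scoped ENNReal InnerProductSpace ComplexConjugate

universe v

lemma euclidean_decomp {n : ℕ} (z : EuclideanSpace ℂ (Fin n)) :
    z = ∑ k, (EuclideanSpace.proj k : EuclideanSpace ℂ (Fin n) →L[ℂ] ℂ) z •
      (EuclideanSpace.single k (1:ℂ)) := by
  ext i
  simp [Finset.sum_apply, Pi.single_apply]

lemma contr2_amp {n m : ℕ} {H : Type*} [NormedAddCommGroup H] [InnerProductSpace ℂ H]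
    [CompleteSpace H]
    (x : Matrix (Fin m) (Fin m) (EuclideanSpace ℂ (Fin n))) (hx : minNorm x ≤ 1) :
    Contr2 (fun k => amp H (x.map (EuclideanSpace.proj k : EuclideanSpace ℂ (Fin n) →L[ℂ] ℂ))) := by
  intro y
  rw [amp_sum_smul]
  obtain ⟨f, hf⟩ : ∃ f : EuclideanSpace ℂ (Fin n) →L[ℂ] ℂ,
      f = ∑ k, y k • (EuclideanSpace.proj k : EuclideanSpace ℂ (Fin n) →L[ℂ] ℂ) := ⟨_, rfl⟩
  have h1 : ∑ k, y k • x.map (EuclideanSpace.proj k : EuclideanSpace ℂ (Fin n) →L[ℂ] ℂ)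
      = x.map f := by
    ext i j
    simp [hf, Matrix.sum_apply, sum_apply]
  rw [h1]
  have h2 : ‖amp H (x.map f)‖ ≤ ‖f‖ :=
    (norm_amp_le _).trans (norm_map_le_of_minNorm x hx f)
  have h3 : ‖f‖ ≤ Real.sqrt (∑ k, ‖y k‖ ^ 2) := by
    refine ContinuousLinearMap.opNorm_le_bound _ (Real.sqrt_nonneg _) fun z => ?_
    have h4 : f z = ∑ k, y k * z k := by
      simp [hf, sum_apply]
    rw [h4, EuclideanSpace.norm_eq]
    calc ‖∑ k, y k * z k‖ ≤ ∑ k, ‖y k‖ * ‖z k‖ := by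
          refine (norm_sum_le _ _).trans (le_of_eq ?_)
          simp
      _ ≤ Real.sqrt (∑ k, ‖y k‖ ^ 2) * Real.sqrt (∑ k, ‖z k‖ ^ 2) :=
          Real.sum_mul_le_sqrt_mul_sqrt _ _ _
  calc ‖amp H (x.map f)‖ ^ 2 ≤ (Real.sqrt (∑ k, ‖y k‖ ^ 2)) ^ 2 := by
        gcongr
        exact h2.trans h3
    _ = ∑ k, ‖y k‖ ^ 2 := Real.sq_sqrt (Finset.sum_nonneg fun i _ => by positivity)

lemma contr2_dia {n m : ℕ} {H : Type*} [NormedAddCommGroup H] [InnerProductSpace ℂ H]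
    (u : EuclideanSpace ℂ (Fin n) →L[ℂ] (H →L[ℂ] H)) (hu : ‖u‖ ≤ 1) :
    Contr2 (fun k => dia m (u (EuclideanSpace.single k (1:ℂ)))) := by
  intro y
  rw [dia_sum_smul]
  have h1 : ∑ k, y k • u (EuclideanSpace.single k (1:ℂ)) = u (WithLp.toLp 2 y) := by
    conv_rhs => rw [euclidean_decomp (WithLp.toLp 2 y)]
    simp [map_sum]
  rw [h1]
  have h2 : ‖dia m (u (WithLp.toLp 2 y))‖ ≤ ‖(WithLp.toLp 2 y : EuclideanSpace ℂ (Fin n))‖ := by
    refine (norm_dia_le _).trans ((u.le_opNorm _).trans ?_)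
    exact mul_le_of_le_one_left (norm_nonneg _) hu
  calc ‖dia m (u (WithLp.toLp 2 y))‖ ^ 2
      ≤ ‖(WithLp.toLp 2 y : EuclideanSpace ℂ (Fin n))‖ ^ 2 := by gcongr
    _ = ∑ k, ‖y k‖ ^ 2 := by
        rw [EuclideanSpace.norm_eq, Real.sq_sqrt (Finset.sum_nonneg fun i _ => by positivity)]

theorem alpha_l2_le (n : ℕ) :
    alpha.{v} (EuclideanSpace ℂ (Fin n)) ≤ ENNReal.ofReal (((n : ℝ) + 1) / 2) := by
  refine iSup_le fun m => iSup_le fun x => iSup_le fun hx => ?_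
  refine iSup_le fun H => iSup_le fun _ => iSup_le fun _ => iSup_le fun _ => iSup_le fun u =>
    iSup_le fun hu => ?_
  apply ENNReal.ofReal_le_ofReal
  rw [blockOp_map_eq_sum x u (fun k => EuclideanSpace.single k (1:ℂ))
    (fun k => (EuclideanSpace.proj k : EuclideanSpace ℂ (Fin n) →L[ℂ] ℂ)) euclidean_decomp]
  apply abstract_bound _ _ (contr2_amp x hx) (contr2_dia u hu)
  · intro i k
    exact amp_comm_dia _ _
  · intro i k
    rw [amp_star]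
    exact amp_comm_dia _ _

end Pool.Agent.H39Alpha
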