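import Pool.Agent.H39Alpha.UpperInf

/-! `α(ℓ_∞ⁿ) ≤ n/√(2n-1)`. -/

namespace Pool.Agent.H39Alpha

open scoped ENNReal InnerProductSpace ComplexConjugate

universe v

lemma exists_compl_of_norm_le_one {V : Type*} [NormedAddCommGroup V] [InnerProductSpace ℂ V]
    [CompleteSpace V] (F : V →L[ℂ] V) (hF : ‖F‖ ≤ 1) :
    ∃ G : V →L[ℂ] V, star F * F + star G * G = 1 := by
  have h1 : star F * F ≤ 1 := by
    rw [← CStarAlgebra.norm_le_one_iff_of_nonneg (star F * F) (star_mul_self_nonneg F),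
      CStarRing.norm_star_mul_self]
    nlinarith [norm_nonneg F]
  obtain ⟨G, hG⟩ := CStarAlgebra.nonneg_iff_eq_star_mul_self.mp (sub_nonneg.mpr h1)
  exact ⟨G, by rw [← hG]; abel⟩

lemma exists_compl_matrix {m : ℕ} (a : Matrix (Fin m) (Fin m) ℂ)
    (ha : ‖Matrix.toEuclideanCLM (𝕜 := ℂ) a‖ ≤ 1) :
    ∃ d : Matrix (Fin m) (Fin m) ℂ, star a * a + star d * d = 1 := by
  obtain ⟨G, hG⟩ := exists_compl_of_norm_le_one _ ha
  refine ⟨(Matrix.toEuclideanCLM (n := Fin m) (𝕜 := ℂ)).symm G, ?_⟩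
  apply EquivLike.injective (Matrix.toEuclideanCLM (n := Fin m) (𝕜 := ℂ))
  rw [map_add, map_mul, map_mul, map_star, map_star, map_one, StarAlgEquiv.apply_symm_apply, hG]

lemma pi_decomp {n : ℕ} (z : Fin n → ℂ) :
    z = ∑ k, (ContinuousLinearMap.proj k : (Fin n → ℂ) →L[ℂ] ℂ) z • (Pi.single k (1:ℂ)) := by
  ext i
  simp [Finset.sum_apply, Pi.single_apply]

theorem alpha_linf_le (n : ℕ) (hn : 1 ≤ n) :
    alpha.{v} (Fin n → ℂ) ≤ ENNReal.ofReal ((n : ℝ) / Real.sqrt (2 * n - 1)) := by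
  refine iSup_le fun m => iSup_le fun x => iSup_le fun hx => ?_
  refine iSup_le fun H => iSup_le fun _ => iSup_le fun _ => iSup_le fun _ => iSup_le fun u =>
    iSup_le fun hu => ?_
  apply ENNReal.ofReal_le_ofReal
  rw [blockOp_map_eq_sum x u (fun k => Pi.single k (1:ℂ))
    (fun k => (ContinuousLinearMap.proj k : (Fin n → ℂ) →L[ℂ] ℂ)) pi_decomp]
  have hproj : ∀ k, ‖(ContinuousLinearMap.proj k : (Fin n → ℂ) →L[ℂ] ℂ)‖ ≤ 1 := fun k =>
    ContinuousLinearMap.opNorm_le_bound _ zero_le_one fun z => by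
      simpa using norm_le_pi_norm z k
  choose d hd using fun k => exists_compl_matrix
    (x.map (ContinuousLinearMap.proj k : (Fin n → ℂ) →L[ℂ] ℂ))
    ((norm_map_le_of_minNorm x hx _).trans (hproj k))
  refine abstract_bound_inf hn _ _ (fun k => amp H (d k)) ?_ ?_ ?_ ?_
  · intro y hy
    rw [dia_sum_smul]
    have h1 : ∑ k, y k • u (Pi.single k (1:ℂ)) = u y := by
      conv_rhs => rw [pi_decomp y]
      simp [map_sum]
    rw [h1]
    refine (norm_dia_le _).trans ((u.le_opNorm _).trans ?_)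
    have h2 : ‖y‖ ≤ 1 := (pi_norm_le_iff_of_nonneg zero_le_one).mpr hy
    calc ‖u‖ * ‖y‖ ≤ 1 * 1 := by gcongr
      _ = 1 := one_mul 1
  · intro k
    rw [amp_star, amp_star, ← amp_mul, ← amp_mul, ← amp_add, hd, amp_one]
  · intro i k
    exact amp_comm_dia _ _
  · intro i k
    exact amp_comm_dia _ _

end Pool.Agent.H39Alpha
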